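import Pool.Agent.helper12.PFS.Spec2

set_option autoImplicit false

namespace Pool.Agent.PFS

open Subgroup

theorem BUR_core {G P : Type} [Group G] [Finite G] [Group P] [Finite P] (N : Subgroup G) [N.Normal] (f : G →* P)
    (hf : Function.Surjective f) (j : ℕ) (hP : IsCyclic P) (hPj : Nat.card P = 3 ^ j) (hN : IsCyclic (G ⧸ N))
    (h3 : ¬ 3 ∣ Nat.card f.ker) :
    ∃ (M : Subgroup G) (_ : M.Normal) (a : ℕ), IsCyclic (G ⧸ M) ∧ ¬ 3 ∣ Nat.card M ∧
      Nat.card N = 3 ^ a * Nat.card M := by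
  have hMn : (N ⊓ f.ker).Normal := Subgroup.normal_inf_normal N f.ker
  have hM3 : ¬ 3 ∣ Nat.card (N ⊓ f.ker : Subgroup G) := fun h =>
    h3 (h.trans (Subgroup.card_dvd_of_le inf_le_right))
  -- `|N| = 3 ^ a |M|`
  have hNM : ∃ a, Nat.card N = 3 ^ a * Nat.card (N ⊓ f.ker : Subgroup G) := by
    have h1 := Subgroup.card_eq_card_quotient_mul_card_subgroup (f.comp N.subtype).ker
    have h2 : Nat.card (f.comp N.subtype).ker = Nat.card (N ⊓ f.ker : Subgroup G) := by
      have h3 : (f.comp N.subtype).ker.map N.subtype = N ⊓ f.ker := by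
        ext x
        simp only [Subgroup.mem_map, MonoidHom.mem_ker, MonoidHom.comp_apply, Subgroup.mem_inf]
        constructor
        · rintro ⟨y, hy, rfl⟩
          exact ⟨y.2, hy⟩
        · rintro ⟨hx, hx2⟩
          exact ⟨⟨x, hx⟩, hx2, rfl⟩
      rw [← h3]
      exact (Subgroup.card_map_of_injective N.subtype_injective).symm
    have h4 : Nat.card (N ⧸ (f.comp N.subtype).ker) ∣ 3 ^ j := by
      rw [← hPj, Nat.card_congr (QuotientGroup.quotientKerEquivRange (f.comp N.subtype)).toEquiv]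
      exact Subgroup.card_subgroup_dvd_card _
    obtain ⟨a, -, ha⟩ := (Nat.dvd_prime_pow Nat.prime_three).1 h4
    exact ⟨a, by rw [h1, ha, h2]⟩
  obtain ⟨a, ha⟩ := hNM
  refine ⟨N ⊓ f.ker, hMn, a, ?_, hM3, ha⟩
  -- the commutative group `A = G ⧸ M`
  have hcN : ∀ x y : G ⧸ N, x * y = y * x := hN.commGroup.mul_comm
  have hcP : ∀ x y : P, x * y = y * x := hP.commGroup.mul_comm
  have hcA : ∀ x y : G ⧸ (N ⊓ f.ker), x * y = y * x := by
    intro x y
    obtain ⟨x, rfl⟩ := QuotientGroup.mk_surjective x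
    obtain ⟨y, rfl⟩ := QuotientGroup.mk_surjective y
    rw [← QuotientGroup.mk_mul, ← QuotientGroup.mk_mul, QuotientGroup.eq, Subgroup.mem_inf]
    constructor
    · rw [← QuotientGroup.eq, QuotientGroup.mk_mul, QuotientGroup.mk_mul]
      exact hcN _ _
    · rw [MonoidHom.mem_ker, map_mul, map_inv, map_mul, map_mul, hcP (f x) (f y), inv_mul_cancel]
  let _ : CommGroup (G ⧸ (N ⊓ f.ker)) := { (inferInstance : Group (G ⧸ (N ⊓ f.ker))) with mul_comm := hcA }
  apply IsCyclic.of_exponent_eq_card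
  have hE1 : Nat.card (G ⧸ N) ∣ Monoid.exponent (G ⧸ (N ⊓ f.ker)) := by
    rw [← IsCyclic.exponent_eq_card]
    have hs : Function.Surjective (QuotientGroup.map (N ⊓ f.ker) N (MonoidHom.id G)
        (by rw [Subgroup.comap_id]; exact inf_le_left)) := by
      intro y
      obtain ⟨y, rfl⟩ := QuotientGroup.mk_surjective y
      exact ⟨QuotientGroup.mk y, rfl⟩
    exact MonoidHom.exponent_dvd hs
  have hE2 : 3 ^ j ∣ Monoid.exponent (G ⧸ (N ⊓ f.ker)) := by
    rw [← hPj, ← IsCyclic.exponent_eq_card]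
    have hs : Function.Surjective (QuotientGroup.lift (N ⊓ f.ker) f (fun x hx => (Subgroup.mem_inf.1 hx).2)) := by
      intro y
      obtain ⟨x, rfl⟩ := hf y
      exact ⟨QuotientGroup.mk x, rfl⟩
    exact MonoidHom.exponent_dvd hs
  -- the order of `A`
  have hc1 : Nat.card G = Nat.card (G ⧸ (N ⊓ f.ker)) * Nat.card (N ⊓ f.ker : Subgroup G) :=
    Subgroup.card_eq_card_quotient_mul_card_subgroup _
  have hc2 : Nat.card G = 3 ^ j * Nat.card f.ker := by
    rw [Subgroup.card_eq_card_quotient_mul_card_subgroup f.ker,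
      Nat.card_congr (QuotientGroup.quotientKerEquivOfSurjective f hf).toEquiv, hPj]
  have hc3 : Nat.card G = Nat.card (G ⧸ N) * Nat.card N := Subgroup.card_eq_card_quotient_mul_card_subgroup _
  have hMpos : 0 < Nat.card (N ⊓ f.ker : Subgroup G) := Nat.card_pos
  have hc4 : Nat.card (G ⧸ (N ⊓ f.ker)) = Nat.card (G ⧸ N) * 3 ^ a := by
    apply Nat.eq_of_mul_eq_mul_right hMpos
    rw [← hc1, hc3, ha]
    ring
  have hcop : Nat.Coprime (3 ^ j) (Nat.card (N ⊓ f.ker : Subgroup G)) :=
    Nat.Coprime.pow_left j ((Nat.Prime.coprime_iff_not_dvd Nat.prime_three).2 hM3)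
  have hdj : 3 ^ j ∣ Nat.card (G ⧸ (N ⊓ f.ker)) := by
    apply hcop.dvd_of_dvd_mul_right
    rw [← hc1, hc2]
    exact dvd_mul_right _ _
  obtain ⟨m', hm'⟩ := hdj
  have h3j : 0 < 3 ^ j := by positivity
  have hm3 : ¬ 3 ∣ m' := by
    intro h
    apply h3
    have h5 : m' * Nat.card (N ⊓ f.ker : Subgroup G) = Nat.card f.ker := by
      apply Nat.eq_of_mul_eq_mul_left h3j
      rw [← hc2, hc1, hm']
      ring
    rw [← h5]
    exact h.mul_right _
  have hcop2 : Nat.Coprime m' (3 ^ a) :=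
    (Nat.Coprime.pow_left a ((Nat.Prime.coprime_iff_not_dvd Nat.prime_three).2 hm3)).symm
  have hmd : m' ∣ Nat.card (G ⧸ N) := by
    apply hcop2.dvd_of_dvd_mul_right
    rw [← hc4, hm']
    exact dvd_mul_left _ _
  have hcop3 : Nat.Coprime (3 ^ j) m' :=
    Nat.Coprime.pow_left j ((Nat.Prime.coprime_iff_not_dvd Nat.prime_three).2 hm3)
  refine Nat.dvd_antisymm Group.exponent_dvd_nat_card ?_
  rw [hm']
  exact hcop3.mul_dvd_of_dvd_of_dvd hE2 (hmd.trans hE1)

theorem BUR : BUR_stmt := by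
  intro G _ _ N _ hodd hS hcyc
  by_cases h3 : 3 ∣ Nat.card G
  · have h31 : Fact (Nat.Prime 3) := ⟨Nat.prime_three⟩
    have hmin : (Nat.card G).minFac = 3 := by
      have hle := Nat.minFac_le_of_dvd (by norm_num : 2 ≤ 3) h3
      have hne1 : Nat.card G ≠ 1 := by
        intro h
        rw [h] at h3
        exact absurd h3 (by decide)
      have hp := Nat.minFac_prime hne1
      have h2 : (Nat.card G).minFac ≠ 2 := by
        intro h
        rw [Nat.minFac_eq_two_iff] at h
        exact (Nat.not_even_iff_odd.2 hodd) (even_iff_two_dvd.2 h)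
      have := hp.two_le
      omega
    obtain ⟨P⟩ : Nonempty (Sylow 3 G) := inferInstance
    have hPc := hS P
    have hle := IsCyclic.normalizer_le_centralizer hmin hPc
    have hker := MonoidHom.not_dvd_card_ker_transferSylow P hle
    have hcomp := MonoidHom.ker_transferSylow_isComplement' P hle
    obtain ⟨j, hj⟩ := IsPGroup.iff_card.1 P.2
    have hcard := hcomp.card_mul_card
    have hsurj : Function.Surjective (MonoidHom.transferSylow P hle) := by
      rw [← MonoidHom.range_eq_top]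
      apply Subgroup.eq_top_of_card_eq
      have h1 := Subgroup.card_eq_card_quotient_mul_card_subgroup (MonoidHom.transferSylow P hle).ker
      rw [Nat.card_congr (QuotientGroup.quotientKerEquivRange (MonoidHom.transferSylow P hle)).toEquiv] at h1
      rw [← hcard, mul_comm] at h1
      exact (Nat.eq_of_mul_eq_mul_right Nat.card_pos h1).symm
    exact BUR_core N (MonoidHom.transferSylow P hle) hsurj j hPc hj hcyc hker
  · refine ⟨N, inferInstance, 0, hcyc, fun h => h3 (h.trans (Subgroup.card_subgroup_dvd_card N)), ?_⟩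
    rw [pow_zero, one_mul]

end Pool.Agent.PFS
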