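import Pool.Agent.helper12.PFS.Spec

set_option autoImplicit false

namespace Pool.Agent.PFS

theorem CYC_zz {X : Type} (o : X) (τ : X → X) (T : X ≃ X) (n : ℕ) : zz o τ T (2 * n) = (rho τ T)^[n] o := by
  induction n with
  | zero => rfl
  | succ n ih =>
    have h1 : 2 * (n + 1) = (2 * n + 1) + 1 := by ring
    rw [h1, Function.iterate_succ_apply', ← ih]
    have h2 : (2 * n + 1) % 2 ≠ 0 := by omega
    have h3 : (2 * n) % 2 = 0 := by omega
    show (if (2 * n + 1) % 2 = 0 then T (τ (T.symm (zz o τ T (2 * n + 1)))) else τ (zz o τ T (2 * n + 1))) = _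
    rw [if_neg h2]
    show τ (if (2 * n) % 2 = 0 then T (τ (T.symm (zz o τ T (2 * n)))) else τ (zz o τ T (2 * n))) = _
    rw [if_pos h3]
    rfl

theorem CYC_odd {X : Type} [Fintype X] (o : X) (τ : X → X) (hτ : Inv o τ) : Odd (Fintype.card X) := by
  classical
  have hp : Fact (Nat.Prime 2) := ⟨Nat.prime_two⟩
  let g : Function.End X := τ
  have hf : g ^ 2 ^ 1 = 1 := by
    rw [pow_one, pow_two]
    funext x
    exact hτ.inv x
  have h := Equiv.Perm.card_fixedPoints_modEq (p := 2) (n := 1) hf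
  have h1 : Fintype.card (Function.fixedPoints τ) = 1 := by
    rw [Fintype.card_eq_one_iff]
    refine ⟨⟨o, (hτ.fix o).2 rfl⟩, ?_⟩
    rintro ⟨y, hy⟩
    exact Subtype.ext ((hτ.fix y).1 hy)
  rw [Nat.odd_iff]
  have h2 : Fintype.card X % 2 = Fintype.card (Function.fixedPoints τ) % 2 := h
  rw [h2, h1]

theorem CYC : CYC_stmt := by
  intro X _ o τ T hτ hG
  classical
  have := Fintype.ofFinite X
  set R := rho τ T with hR
  have hRinj : Function.Injective R := by
    intro x y hxy
    have h1 : τ (T (τ (T.symm x))) = τ (T (τ (T.symm y))) := hxy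
    have h2 := congrArg τ h1
    rw [hτ.inv, hτ.inv] at h2
    have h3 := congrArg τ (T.injective h2)
    rw [hτ.inv, hτ.inv] at h3
    exact T.symm.injective h3
  have hper : o ∈ Function.periodicPts R := by
    have hni : ¬ Function.Injective (fun n : ℕ => R^[n] o) := not_injective_infinite_finite _
    rw [Function.Injective] at hni
    push Not at hni
    obtain ⟨a, b, hab, hne⟩ := hni
    have aux : ∀ a b : ℕ, a < b → R^[a] o = R^[b] o → o ∈ Function.periodicPts R := by
      intro a b hlt hab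
      refine ⟨b - a, by omega, ?_⟩
      have h1 : R^[b] o = R^[a] (R^[b - a] o) := by
        rw [← Function.iterate_add_apply]
        congr 1
        omega
      rw [h1] at hab
      exact (hRinj.iterate a hab).symm
    rcases lt_or_gt_of_ne hne with h | h
    · exact aux a b h hab
    · exact aux b a h hab.symm
  set P := Function.minimalPeriod R o with hP
  have hPpos : 0 < P := Function.minimalPeriod_pos_of_mem_periodicPts hper
  have hinjP : ∀ i j, i < P → j < P → R^[i] o = R^[j] o → i = j := by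
    intro i j hi hj hij
    exact Function.iterate_injOn_Iio_minimalPeriod (f := R) (x := o) hi hj hij
  have hsurj : ∀ x, ∃ n, n < P ∧ R^[n] o = x := by
    intro x
    obtain ⟨n, hn⟩ := hG o x
    exact ⟨n % P, Nat.mod_lt _ hPpos, by rw [hP, Function.iterate_mod_minimalPeriod_eq]; exact hn⟩
  have hcard : Fintype.card X = P := by
    have hb : Function.Bijective (fun i : Fin P => R^[i.1] o) :=
      ⟨fun i j hij => Fin.ext (hinjP i.1 j.1 i.2 j.2 hij), fun x => by
        obtain ⟨n, hn, hx⟩ := hsurj x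
        exact ⟨⟨n, hn⟩, hx⟩⟩
    rw [← Fintype.card_of_bijective hb, Fintype.card_fin]
  obtain ⟨h, hh⟩ := CYC_odd o τ hτ
  have hPh : P = 2 * h + 1 := by rw [← hcard]; exact hh
  have hback : ∀ x, R (τ (R x)) = τ x := by
    intro x
    show τ (T (τ (T.symm (τ (τ (T (τ (T.symm x)))))))) = τ x
    rw [hτ.inv, Equiv.symm_apply_apply, hτ.inv, Equiv.apply_symm_apply]
  have hbackn : ∀ n x, R^[n] (τ (R^[n] x)) = τ x := by
    intro n
    induction n with
    | zero => intro x; rfl
    | succ n ih =>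
      intro x
      rw [Function.iterate_succ_apply', Function.iterate_succ_apply, ← Function.iterate_succ_apply' R n,
        Function.iterate_succ_apply]
      have h1 : R (τ (R^[n] (R x))) = R (τ (R (R^[n] x))) := by
        rw [← Function.iterate_succ_apply, Function.iterate_succ_apply']
      rw [h1, hback, ih]
  have hτo : τ o = o := (hτ.fix o).2 rfl
  have hτR : ∀ n, n ≤ P → τ (R^[n] o) = R^[P - n] o := by
    intro n hn
    apply hRinj.iterate n
    rw [hbackn, hτo, ← Function.iterate_add_apply]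
    have h1 : n + (P - n) = P := by omega
    rw [h1]
    exact (Function.isPeriodicPt_minimalPeriod R o).symm
  have heven : ∀ n, zz o τ T (2 * n) = R^[n] o := fun n => CYC_zz o τ T n
  have hodd' : ∀ n, zz o τ T (2 * n + 1) = τ (R^[n + 1] o) := by
    intro n
    show (if (2 * n) % 2 = 0 then T (τ (T.symm (zz o τ T (2 * n)))) else τ (zz o τ T (2 * n))) = _
    rw [if_pos (by omega : (2 * n) % 2 = 0), heven, Function.iterate_succ_apply']
    show _ = τ (τ (T (τ (T.symm (R^[n] o)))))
    rw [hτ.inv]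
  have hodd : ∀ n, n + 1 ≤ P → zz o τ T (2 * n + 1) = R^[P - (n + 1)] o := by
    intro n hn
    rw [hodd', hτR _ hn]
  have hex : ∀ i, i ≤ 2 * h → ∃ n, n < P ∧ zz o τ T i = R^[n] o ∧
      ((i % 2 = 0 ∧ n = i / 2) ∨ (i % 2 = 1 ∧ n = P - (i + 1) / 2)) := by
    intro i hi
    rcases Nat.mod_two_eq_zero_or_one i with h0 | h0
    · refine ⟨i / 2, by omega, ?_, Or.inl ⟨h0, rfl⟩⟩
      have h1 : i = 2 * (i / 2) := by omega
      rw [← heven (i / 2), ← h1]
    · refine ⟨P - (i + 1) / 2, by omega, ?_, Or.inr ⟨h0, rfl⟩⟩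
      have h1 : i = 2 * (i / 2) + 1 := by omega
      have h2 : (i + 1) / 2 = i / 2 + 1 := by omega
      rw [h2, ← hodd (i / 2) (by omega), ← h1]
  refine ⟨h, ?_, ?_, ?_, ?_⟩
  · rw [Nat.card_eq_fintype_card, hh]
  · have h1 : zz o τ T (2 * h + 1) = zz o τ T (2 * h) := by
      rw [hodd h (by omega), heven]
      congr 2
      omega
    have h2 : T (τ (T.symm (zz o τ T (2 * h)))) = zz o τ T (2 * h) := by
      rw [← h1]
      conv_rhs => rw [h1]
      rw [h1]
      have h3 : zz o τ T (2 * h + 1) = T (τ (T.symm (zz o τ T (2 * h)))) := by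
        show (if (2 * h) % 2 = 0 then T (τ (T.symm (zz o τ T (2 * h)))) else τ (zz o τ T (2 * h))) = _
        rw [if_pos (by omega : (2 * h) % 2 = 0)]
      rw [← h3, h1]
    have h3 : τ (T.symm (zz o τ T (2 * h))) = T.symm (zz o τ T (2 * h)) := by
      apply T.injective
      rw [h2, Equiv.apply_symm_apply]
    have h4 := (hτ.fix _).1 h3
    have h5 := congrArg T h4
    rw [Equiv.apply_symm_apply] at h5
    exact h5
  · intro i j hi hj hij
    obtain ⟨n, hn, hzn, hcn⟩ := hex i hi
    obtain ⟨m, hm, hzm, hcm⟩ := hex j hj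
    have hnm : n = m := by
      apply hinjP n m hn hm
      rw [← hzn, ← hzm, hij]
    rcases hcn with ⟨h0, h1⟩ | ⟨h0, h1⟩ <;> rcases hcm with ⟨h2, h3⟩ | ⟨h2, h3⟩ <;> omega
  · intro x
    obtain ⟨n, hn, hx⟩ := hsurj x
    rcases Nat.lt_or_ge h n with hlt | hge
    · refine ⟨2 * (P - n - 1) + 1, by omega, ?_⟩
      rw [hodd _ (by omega)]
      rw [← hx]
      congr 2
      omega
    · exact ⟨2 * n, by omega, by rw [heven, hx]⟩

end Pool.Agent.PFS
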