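import Pool.Agent.helper12.PFS.Spec2

set_option autoImplicit false

namespace Pool.Agent.PFS

theorem FN2_WW1 : WW 1 = 1 := by
  unfold WW
  simp

theorem FN2 (h1 : STP_stmt) (h2 : TRV_stmt) (h4 : CHN_stmt) (h5 : EXX_stmt) (h6 : WMU_stmt) (h7 : CYB_stmt) :
    FN2_stmt := by
  have key : ∀ n : ℕ, ∀ (G : Type) [Group G] [Finite G] (N : Subgroup G) [N.Normal], Nat.card N = n →
      Group.IsSolvable G → Odd (Nat.card G) → IsCyclic (G ⧸ N) → ¬ 3 ∣ Nat.card N →
      ∃ f : G → G, StG f ∧ Nat.totient (Nat.card (G ⧸ N)) * WW (Nat.card N) ≤ ng f := by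
    intro n
    induction n using Nat.strong_induction_on with
    | _ n ih =>
      intro G _ _ N _ hn hs hodd hcyc h3
      have hpos : 0 < Nat.card N := Nat.card_pos
      rcases Nat.lt_or_ge 1 (Nat.card N) with hlt | hge
      · obtain ⟨p, K, hp, hK, hKN, hK1, hcom, hexp⟩ := h4 G N hs hlt
        have : Fact p.Prime := ⟨hp⟩
        have := hK
        obtain ⟨V, iA, iM, iF, k, hV, ⟨D⟩⟩ := h5 G p K hK1 hcom hexp
        have hcard : Nat.card G = p ^ (k + 1) * Nat.card (G ⧸ K) := by
          rw [← Nat.card_congr D.E, Nat.card_prod, hV, mul_comm]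
        have hQpos : 0 < Nat.card (G ⧸ K) := Nat.card_pos
        have hcardK : Nat.card K = p ^ (k + 1) := by
          have h := Subgroup.card_eq_card_quotient_mul_card_subgroup K
          rw [hcard, mul_comm] at h
          exact (Nat.eq_of_mul_eq_mul_left hQpos h).symm
        have hpk : 1 < p ^ (k + 1) := Nat.one_lt_pow (Nat.succ_ne_zero k) hp.one_lt
        have hpodd : Odd (p ^ (k + 1)) := by
          rw [hcard] at hodd
          exact (Nat.odd_mul.1 hodd).1
        have hQodd : Odd (Nat.card (G ⧸ K)) := by
          rw [hcard] at hodd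
          exact (Nat.odd_mul.1 hodd).2
        have hp2 : p ≠ 2 := by
          rintro rfl
          rw [pow_succ] at hpodd
          exact absurd (Nat.odd_mul.1 hpodd).2 (by decide)
        have hp3 : p ≠ 3 := by
          rintro rfl
          apply h3
          have h31 : 3 ∣ Nat.card K := by
            rw [hcardK, pow_succ]
            exact Dvd.intro_left _ rfl
          exact h31.trans (Subgroup.card_dvd_of_le hKN)
        have hN'n : (N.map (QuotientGroup.mk' K)).Normal :=
          Subgroup.Normal.map inferInstance _ (QuotientGroup.mk'_surjective K)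
        let e := QuotientGroup.quotientQuotientEquivQuotient K N hKN
        have hcardq : Nat.card ((G ⧸ K) ⧸ N.map (QuotientGroup.mk' K)) = Nat.card (G ⧸ N) :=
          Nat.card_congr e.toEquiv
        have hcyc' : IsCyclic ((G ⧸ K) ⧸ N.map (QuotientGroup.mk' K)) :=
          isCyclic_of_surjective e.symm e.symm.surjective
        have hcardN : Nat.card N = p ^ (k + 1) * Nat.card (N.map (QuotientGroup.mk' K)) := by
          have e1 := Subgroup.card_eq_card_quotient_mul_card_subgroup N
          have e2 := Subgroup.card_eq_card_quotient_mul_card_subgroup (N.map (QuotientGroup.mk' K))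
          rw [hcardq] at e2
          have hqpos : 0 < Nat.card (G ⧸ N) := Nat.card_pos
          apply Nat.eq_of_mul_eq_mul_left hqpos
          rw [← e1, hcard, e2]
          ring
        have hN'pos : 0 < Nat.card (N.map (QuotientGroup.mk' K)) := Nat.card_pos
        have hN'lt : Nat.card (N.map (QuotientGroup.mk' K)) < n := by
          rw [← hn, hcardN]
          exact lt_mul_left hN'pos hpk
        have hN'3 : ¬ 3 ∣ Nat.card (N.map (QuotientGroup.mk' K)) := fun h =>
          h3 (by rw [hcardN]; exact Dvd.dvd.mul_left h _)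
        have hW : WW (Nat.card N) = (p - 3) ^ (k + 1) * WW (Nat.card (N.map (QuotientGroup.mk' K))) := by
          rw [hcardN, h6 p (k + 1) _ hp hN'pos.ne', if_neg hp3]
        rcases Nat.lt_or_ge 1 (Nat.card (G ⧸ K)) with hQ1 | hQ1
        · have hQs : Group.IsSolvable (G ⧸ K) := inferInstance
          obtain ⟨f, hf, hfn⟩ := ih _ hN'lt (G ⧸ K) (N.map (QuotientGroup.mk' K)) rfl hQs hQodd hcyc' hN'3
          obtain ⟨f', hf', hn'⟩ := h1 p G (G ⧸ K) V D k f hp2 hV hodd hf hQ1
          refine ⟨f', hf', ?_⟩
          rw [hcardq] at hfn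
          rw [hW]
          calc Nat.totient (Nat.card (G ⧸ N)) * ((p - 3) ^ (k + 1) * WW (Nat.card (N.map (QuotientGroup.mk' K))))
              = (p - 3) ^ (k + 1) * (Nat.totient (Nat.card (G ⧸ N)) *
                  WW (Nat.card (N.map (QuotientGroup.mk' K)))) := by ring
            _ ≤ (p - 3) ^ (k + 1) * ng f := Nat.mul_le_mul_left _ hfn
            _ ≤ ng f' := hn'
        · have hQe : Nat.card (G ⧸ K) = 1 := le_antisymm hQ1 hQpos
          obtain ⟨f', hf', hn'⟩ := h2 p G (G ⧸ K) V D k hp2 hV hQe
          refine ⟨f', hf', ?_⟩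
          have hN'1 : Nat.card (N.map (QuotientGroup.mk' K)) = 1 := by
            have e2 := Subgroup.card_eq_card_quotient_mul_card_subgroup (N.map (QuotientGroup.mk' K))
            rw [hQe] at e2
            exact Nat.eq_one_of_mul_eq_one_left e2.symm
          have hq1 : Nat.card (G ⧸ N) = 1 := by
            have e2 := Subgroup.card_eq_card_quotient_mul_card_subgroup (N.map (QuotientGroup.mk' K))
            rw [hQe, hcardq] at e2
            exact Nat.eq_one_of_mul_eq_one_right e2.symm
          rw [hW, hq1, hN'1, FN2_WW1, Nat.totient_one, one_mul, mul_one]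
          exact hn'
      · have hN1 : Nat.card N = 1 := le_antisymm hge hpos
        have hbot : N = ⊥ := Subgroup.card_eq_one.1 hN1
        subst hbot
        have hGc : IsCyclic G :=
          isCyclic_of_surjective (QuotientGroup.quotientBot (G := G)) (QuotientGroup.quotientBot (G := G)).surjective
        obtain ⟨f, hf, hfn⟩ := h7 G hGc hodd
        refine ⟨f, hf, ?_⟩
        rw [hN1, FN2_WW1, mul_one, Nat.card_congr (QuotientGroup.quotientBot (G := G)).toEquiv]
        exact hfn
  intro G _ _ N _ hs hodd hcyc h3
  exact key _ G N rfl hs hodd hcyc h3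

end Pool.Agent.PFS
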