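import Pool.Agent.helper12.PFS.Spec2

set_option autoImplicit false

namespace Pool.Agent.PFS

theorem Fin2_ne {G : Type} [Group G] [Fintype G] (f : G → G) (hf : StG f) (h1 : 1 < Fintype.card G) (k : G)
    (hk : Gd f (Equiv.mulRight k)) : k ≠ 1 := by
  rintro rfl
  have hrho : ∀ x, rho f (Equiv.mulRight (1 : G)) x = x := by
    intro x
    show f (f (x * 1⁻¹) * 1) = x
    rw [inv_one, mul_one, mul_one, hf.inv.inv]
  have hit : ∀ (n : ℕ) (x : G), (rho f (Equiv.mulRight (1 : G)))^[n] x = x := by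
    intro n
    induction n with
    | zero => intro x; rfl
    | succ n ih =>
      intro x
      rw [Function.iterate_succ_apply, hrho, ih]
  obtain ⟨x, y, hxy⟩ := Fintype.one_lt_card_iff.1 h1
  obtain ⟨n, hn⟩ := hk x y
  rw [hit] at hn
  exact hxy hn

theorem Fin2_count (h1 : HAM_stmt) {G : Type} [Group G] [Fintype G] [DecidableEq G] (f : G → G) (hf : StG f)
    (hG : 1 < Fintype.card G) :
    Fintype.card G * ng f ≤ Nat.card {q : G × G // q.1 ≠ q.2 ∧
      ∃ (a : Option G) (p : (UG f q.1 q.2).Walk a a), p.IsHamiltonianCycle} := by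
  have hc : Fintype.card G * ng f = Nat.card (G × {h : G // Gd f (Equiv.mulRight h)}) := by
    rw [Nat.card_prod, Nat.card_eq_fintype_card]
    rfl
  rw [hc]
  refine Nat.card_le_card_of_injective (fun w : G × {h : G // Gd f (Equiv.mulRight h)} =>
    (⟨(w.1, w.2.1 * w.1), ?_, ?_⟩ : {q : G × G // q.1 ≠ q.2 ∧
      ∃ (a : Option G) (p : (UG f q.1 q.2).Walk a a), p.IsHamiltonianCycle})) ?_
  · intro h
    exact Fin2_ne f hf hG w.2.1 w.2.2 (right_eq_mul.1 h)
  · apply h1 G f w.1 (w.2.1 * w.1) hf hG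
    rw [mul_inv_cancel_right]
    exact w.2.2
  · rintro ⟨g, k⟩ ⟨g', k'⟩ h
    have h2 := congrArg Subtype.val h
    simp only [Prod.mk.injEq] at h2
    obtain ⟨rfl, h3⟩ := h2
    have h4 : k = k' := Subtype.ext (mul_right_cancel h3)
    rw [h4]

theorem Fin2 (h1 : HAM_stmt) (h2 : FN2_stmt) (h3 : BUR_stmt) (h4 : NUM_stmt)
    (G : Type) [Group G] [Fintype G] [DecidableEq G] (N : Subgroup G) [N.Normal] (hs : Group.IsSolvable G)
    (hodd : Odd (Fintype.card G)) (hG : 1 < Fintype.card G) (hS : ∀ P : Sylow 3 G, IsCyclic P)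
    (hN : IsCyclic (G ⧸ N)) :
    ∃ f : G → G, (∀ x : G, x ≠ 1 → f x ≠ 1 ∧ f x ≠ x ∧ f (f x) = x) ∧
      (∀ h : G, h ≠ 1 → ∃ x : G, x ≠ 1 ∧ x * (f x)⁻¹ = h) ∧
      Fintype.card G * (Nat.totient N.index * ∏ p ∈ (Nat.card N).primeFactors,
          (if p = 3 then 2 * 3 ^ ((Nat.card N).factorization 3 - 1) else (p - 3) ^ (Nat.card N).factorization p)) ≤
        Nat.card {q : G × G // q.1 ≠ q.2 ∧
          ∃ (a : Option G) (p : (UG f q.1 q.2).Walk a a), p.IsHamiltonianCycle} := by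
  have hodd' : Odd (Nat.card G) := by
    rw [Nat.card_eq_fintype_card]
    exact hodd
  obtain ⟨M, hM, a, hMc, hM3, hNM⟩ := h3 G N hodd' hS hN
  obtain ⟨f, hf, hfn⟩ := h2 G M hs hodd' hMc hM3
  have hf1 : f 1 = 1 := (hf.inv.fix 1).2 rfl
  refine ⟨f, ?_, hf.qt, ?_⟩
  · intro x hx
    refine ⟨fun h => ?_, fun h => hx ((hf.inv.fix x).1 h), hf.inv.inv x⟩
    apply hx
    rw [← hf.inv.inv x, h, hf1]
  · have hMpos : 0 < Nat.card M := Nat.card_pos
    have hq : Nat.card (G ⧸ M) = N.index * 3 ^ a := by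
      have e1 := Subgroup.card_eq_card_quotient_mul_card_subgroup N
      have e2 := Subgroup.card_eq_card_quotient_mul_card_subgroup M
      apply Nat.eq_of_mul_eq_mul_right hMpos
      rw [← e2, e1, hNM]
      show _ = N.index * 3 ^ a * Nat.card M
      rw [mul_assoc]
      rfl
    rw [hq] at hfn
    refine le_trans (Nat.mul_le_mul_left _ (le_trans (h4 N.index (Nat.card N) (Nat.card M) a hMpos.ne' hM3 hNM) hfn)) ?_
    exact Fin2_count h1 f hf hG

end Pool.Agent.PFS
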