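import Pool.Agent.helper12.PFS.Spec

set_option autoImplicit false

namespace Pool.Agent.PFS

theorem HCL_walk {W : Type} (Γ : SimpleGraph W) (N : ℕ) (s : ℕ → W)
    (hadj : ∀ i, i + 1 < N → Γ.Adj (s i) (s (i + 1))) :
    ∀ n, n < N → ∃ p : Γ.Walk (s 0) (s n), p.support = (List.range (n + 1)).map s ∧
      p.edges = (List.range n).map (fun i => s(s i, s (i + 1))) ∧ p.length = n := by
  intro n
  induction n with
  | zero =>
    intro _
    exact ⟨SimpleGraph.Walk.nil, rfl, rfl, rfl⟩
  | succ n ih =>
    intro hn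
    obtain ⟨p, hp1, hp2, hp3⟩ := ih (by omega)
    refine ⟨p.concat (hadj n hn), ?_, ?_, ?_⟩
    · rw [SimpleGraph.Walk.support_concat, hp1, List.range_succ (n := n + 1), List.map_append]
      simp
    · rw [SimpleGraph.Walk.edges_concat, hp2, List.range_succ (n := n), List.map_append]
      simp
    · rw [SimpleGraph.Walk.length_concat, hp3]

theorem HCL : HCL_stmt := by
  intro W _ _ Γ N s hN hcard hinj hadj hlast
  obtain ⟨p, hp1, hp2, hp3⟩ := HCL_walk Γ N s hadj (N - 1) (by omega)
  have hpath : p.IsPath := by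
    rw [SimpleGraph.Walk.isPath_def, hp1]
    refine List.Nodup.map_on ?_ List.nodup_range
    intro x hx y hy hxy
    rw [List.mem_range] at hx hy
    exact hinj x y (by omega) (by omega) hxy
  have hcyc : (SimpleGraph.Walk.cons hlast p).IsCycle := by
    rw [SimpleGraph.Walk.cons_isCycle_iff]
    refine ⟨hpath, ?_⟩
    rw [hp2, List.mem_map]
    rintro ⟨i, hi, he⟩
    rw [List.mem_range] at hi
    rcases Sym2.eq_iff.1 he with ⟨h1, h2⟩ | ⟨h1, h2⟩
    · have := hinj i (N - 1) (by omega) (by omega) h1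
      omega
    · have h3 := hinj i 0 (by omega) (by omega) h1
      have h4 := hinj (i + 1) (N - 1) (by omega) (by omega) h2
      omega
  have hham : (SimpleGraph.Walk.cons hlast p).IsHamiltonianCycle := by
    rw [SimpleGraph.Walk.isHamiltonianCycle_iff_isCycle_and_length_eq]
    refine ⟨hcyc, ?_⟩
    rw [SimpleGraph.Walk.length_cons, hp3, hcard]
    omega
  have hmem : s 0 ∈ (SimpleGraph.Walk.cons hlast p).support := hham.mem_support (s 0)
  refine ⟨(SimpleGraph.Walk.cons hlast p).rotate (s 0) hmem, ?_⟩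
  exact (SimpleGraph.Walk.isHamiltonianCycle_rotate hmem).2 hham

end Pool.Agent.PFS
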