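import Pool.Agent.helper12.PFS.Spec

set_option autoImplicit false

namespace Pool.Agent.PFS

theorem LIN : LIN_stmt := by
  intro X V F _ _ _ _ o τ r sV l c hτ hr hs hl
  have hτo : τ o = o := (hτ.fix o).2 rfl
  have hne : ∀ x, x ≠ o → τ x ≠ o := by
    intro x hx h
    apply hx
    have := hτ.inv x
    rw [h, hτo] at this
    exact this.symm
  constructor
  · rintro ⟨x, u⟩
    by_cases hx : x = o
    · subst hx
      unfold lft
      simp only [if_true]
      rw [hs.inv]
    · have hx2 := hne x hx
      have hrx := hr x hx
      unfold lft
      simp only [if_neg hx, if_neg hx2]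
      refine Prod.ext (hτ.inv x) ?_
      show fm τ r l c (τ x) (fm τ r l c x u) = u
      unfold fm
      rw [hτ.inv]
      cases hrb : r x
      · rw [hrb] at hrx
        simp only [hrx, Bool.not_false, if_true, Bool.false_eq_true, if_false]
        rw [smul_smul, mul_inv_cancel₀ (hl _), one_smul, sub_add_cancel]
      · rw [hrb] at hrx
        simp only [hrx, Bool.not_true, if_true, Bool.false_eq_true, if_false]
        rw [add_sub_cancel_right, smul_smul, inv_mul_cancel₀ (hl _), one_smul]
  · rintro ⟨x, u⟩
    constructor
    · intro h
      by_cases hx : x = o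
      · subst hx
        unfold lft at h
        simp only [if_true] at h
        have h2 : sV u = u := (Prod.mk.inj h).2
        rw [(hs.fix u).1 h2]
      · unfold lft at h
        simp only [if_neg hx] at h
        exact (hx ((hτ.fix x).1 (Prod.mk.inj h).1)).elim
    · intro h
      rw [h]
      unfold lft
      simp only [if_true]
      rw [(hs.fix 0).2 rfl]

end Pool.Agent.PFS
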