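import Pool.Agent.helper12.PFS.Spec

set_option autoImplicit false

namespace Pool.Agent.PFS

theorem REP : REP_stmt := by
  intro X o τ hτ
  classical
  obtain ⟨lo, -⟩ := exists_wellFoundedLT X
  refine ⟨fun x => decide (x < τ x), ?_⟩
  intro x hx
  show decide (τ x < τ (τ x)) = !(decide (x < τ x))
  rw [hτ.inv]
  have hne : τ x ≠ x := fun h => hx ((hτ.fix x).1 h)
  rcases lt_or_gt_of_ne hne with h | h
  · simp only [h, decide_true, not_lt_of_gt h, decide_false, Bool.not_false]
  · simp only [h, decide_true, not_lt_of_gt h, decide_false, Bool.not_true]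

theorem CJ : CJ_stmt := by
  intro X Y E τ T T' hT hG
  have hT' : ∀ y, T'.symm y = E (T.symm (E.symm y)) := by
    intro y
    rw [Equiv.symm_apply_eq, hT, Equiv.apply_symm_apply, Equiv.apply_symm_apply]
  have hrho : ∀ x, rho (fun y => E (τ (E.symm y))) T' (E x) = E (rho τ T x) := by
    intro x
    unfold rho
    simp only
    rw [hT', Equiv.symm_apply_apply, Equiv.symm_apply_apply, hT, Equiv.symm_apply_apply]
  have hit : ∀ (n : ℕ) (x : X), (rho (fun y => E (τ (E.symm y))) T')^[n] (E x) = E ((rho τ T)^[n] x) := by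
    intro n
    induction n with
    | zero => intro x; rfl
    | succ n ih =>
      intro x
      rw [Function.iterate_succ_apply, Function.iterate_succ_apply, hrho, ih]
  intro x y
  obtain ⟨n, hn⟩ := hG (E.symm x) (E.symm y)
  refine ⟨n, ?_⟩
  have := hit n (E.symm x)
  rw [hn, Equiv.apply_symm_apply, Equiv.apply_symm_apply] at this
  exact this

theorem RM : RM_stmt := by
  intro p _ G Q V _ _ _ _ D g
  have hk : ∀ x : Q, ∃ u : V, D.em u = D.sec x * g * (D.sec (x * D.pr g))⁻¹ := by
    intro x
    apply D.ker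
    rw [map_mul, map_mul, map_inv, D.pr_sec, D.pr_sec, mul_inv_cancel]
  choose t ht using hk
  refine ⟨t, ?_⟩
  rintro ⟨x, u⟩
  rw [Ext.E_apply, Ext.E_apply]
  show D.em u * D.sec x * g = D.em ((1 : (ZMod p)ˣ) • u + t x) * D.sec (x * D.pr g)
  rw [one_smul, D.em_add, ht, mul_assoc, mul_assoc, inv_mul_cancel_right]

end Pool.Agent.PFS
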