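import Pool.Agent.helper12.PFS.Spec

set_option autoImplicit false

namespace Pool.Agent.PFS

theorem ST1_two {p : ℕ} [Fact p.Prime] (hp : p ≠ 2) : (2 : ZMod p) ≠ 0 := by
  intro h
  have h2 : ((2 : ℕ) : ZMod p) = 0 := by exact_mod_cast h
  rw [ZMod.natCast_eq_zero_iff] at h2
  exact hp ((Nat.prime_dvd_prime_iff_eq (Fact.out : p.Prime) Nat.prime_two).1 h2)

theorem ST1 (h1 : LIN_stmt) : ST1_stmt := by
  intro p _ V _ _ _ σ r l c hp hσ hr hl
  have h2 := ST1_two hp
  have hl0 : ∀ x, l x ≠ 0 := fun x h => hl x (by rw [h]; exact ⟨0, (mul_zero 0).symm⟩)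
  have hl1 : ∀ x, l x ≠ 1 := fun x h => hl x (by rw [h]; exact ⟨1, (mul_one 1).symm⟩)
  have hneg : Inv (0 : ZMod p) (fun u : ZMod p => -u) := by
    refine ⟨fun x => neg_neg x, fun x => ⟨fun h => ?_, fun h => by simp only [h, neg_zero]⟩⟩
    have h3 : (2 : ZMod p) * x = 0 := by
      have h4 : -x = x := h
      calc (2 : ZMod p) * x = x + x := two_mul x
        _ = x + -x := by rw [h4]
        _ = 0 := add_neg_cancel x
    exact (mul_eq_zero.1 h3).resolve_left h2
  refine ⟨h1 V (ZMod p) (ZMod p) 0 σ r _ l c hσ.inv hr hneg hl0, ?_⟩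
  rintro ⟨g1, g2⟩ hg
  by_cases hg1 : g1 = 0
  · subst hg1
    have hg2 : g2 ≠ 0 := fun h => hg (by rw [h]; rfl)
    refine ⟨(0, g2 / 2), ?_, ?_⟩
    · intro h
      have h3 : g2 / 2 = 0 := congrArg Prod.snd h
      rcases div_eq_zero_iff.1 h3 with h4 | h4
      · exact hg2 h4
      · exact h2 h4
    · unfold lft
      simp only [if_true]
      refine Prod.ext ?_ ?_
      · show (0 : V) - 0 = 0
        exact sub_zero 0
      · show g2 / 2 - -(g2 / 2) = g2
        rw [sub_neg_eq_add, ← mul_two, div_mul_cancel₀ _ h2]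
  · obtain ⟨x, hx, hxg⟩ := hσ.qt g1 hg1
    have hsol : ∃ u : ZMod p, u - fm σ r l c x u = g2 := by
      unfold fm
      cases hrb : r x
      · simp only [Bool.false_eq_true, if_false]
        have h3 : (1 : ZMod p) - (l (σ x))⁻¹ ≠ 0 := by
          intro h
          exact hl1 (σ x) (inv_eq_one.1 (sub_eq_zero.1 h).symm)
        refine ⟨(g2 - (l (σ x))⁻¹ * c (σ x)) / (1 - (l (σ x))⁻¹), ?_⟩
        rw [smul_eq_mul]
        have h4 : ∀ u : ZMod p, u - (l (σ x))⁻¹ * (u - c (σ x)) = u * (1 - (l (σ x))⁻¹) + (l (σ x))⁻¹ * c (σ x) := by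
          intro u
          ring
        rw [h4, div_mul_cancel₀ _ h3, sub_add_cancel]
      · simp only [if_true]
        have h3 : (1 : ZMod p) - l x ≠ 0 := by
          intro h
          exact hl1 x (sub_eq_zero.1 h).symm
        refine ⟨(g2 + c x) / (1 - l x), ?_⟩
        rw [smul_eq_mul]
        have h4 : ∀ u : ZMod p, u - (l x * u + c x) = u * (1 - l x) - c x := by
          intro u
          ring
        rw [h4, div_mul_cancel₀ _ h3, add_sub_cancel_right]
    obtain ⟨u, hu⟩ := hsol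
    refine ⟨(x, u), ?_, ?_⟩
    · intro h
      exact hx (congrArg Prod.fst h)
    · unfold lft
      simp only [if_neg hx]
      refine Prod.ext ?_ ?_
      · exact hxg
      · exact hu

end Pool.Agent.PFS
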