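import Mathlib

/-!
# Almost perfect starters (MP_16a903_co): definitions
-/

set_option autoImplicit false

namespace Pool.Agent.PFS

/-- every orbit is everything -/
def Tr {X : Type} (ρ : X → X) : Prop := ∀ x y, ∃ n : ℕ, ρ^[n] x = y

/-- an involution whose only fixed point is `o` -/
structure Inv {X : Type} (o : X) (τ : X → X) : Prop where
  inv : ∀ x, τ (τ x) = x
  fix : ∀ x, τ x = x ↔ x = o

/-- `τ ∘ (T τ T⁻¹)` -/
def rho {X : Type} (τ : X → X) (T : X ≃ X) (x : X) : X := τ (T (τ (T.symm x)))

/-- `τ ∘ (T τ T⁻¹)` is one cycle on all of `X` -/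
def Gd {X : Type} (τ : X → X) (T : X ≃ X) : Prop := Tr (rho τ T)

/-- `r` chooses one point of every pair `{x, τ x}`, `x ≠ o` -/
def Rp {X : Type} (o : X) (τ : X → X) (r : X → Bool) : Prop := ∀ x, x ≠ o → r (τ x) = !(r x)

/-- the path `o, τ' o, τ τ' o, τ' τ τ' o, ...` with `τ' = T τ T⁻¹` -/
def zz {X : Type} (o : X) (τ : X → X) (T : X ≃ X) : ℕ → X
  | 0 => o
  | n + 1 => if n % 2 = 0 then T (τ (T.symm (zz o τ T n))) else τ (zz o τ T n)

/-- the path `zz` runs through all points exactly once and ends at `T o` -/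
structure Cyc {X : Type} (o : X) (τ : X → X) (T : X ≃ X) (h : ℕ) : Prop where
  card : Nat.card X = 2 * h + 1
  last : zz o τ T (2 * h) = T o
  inj : ∀ i j, i ≤ 2 * h → j ≤ 2 * h → zz o τ T i = zz o τ T j → i = j
  surj : ∀ x, ∃ i, i ≤ 2 * h ∧ zz o τ T i = x

/-- a step of a path: the letter `e`, the direction `d`, the weight `w` -/
structure Step (E F : Type) where
  e : E
  d : Bool
  w : F

section words

variable {E F : Type} [Field F]

/-- the multiplier of a step -/
def mu (l : E → F) (s : Step E F) : F := if s.d then l s.e else (l s.e)⁻¹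

/-- the coefficient of the shift in a step -/
def cw (l : E → F) (s : Step E F) : F := if s.d then s.w else -(s.w * (l s.e)⁻¹)

/-- the coefficient of the shift `c e` at the end of the path -/
def kap [DecidableEq E] (l : E → F) : List (Step E F) → E → F
  | [], _ => 0
  | s :: W, e => (if s.e = e then cw l s * (W.map (mu l)).prod else 0) + kap l W e

/-- the words which occur: every letter occurs twice, and two adjacent steps with the same letter and different
directions have different weights -/
structure Wd [DecidableEq E] (W : List (Step E F)) : Prop where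
  ne : W ≠ []
  w0 : ∀ s ∈ W, s.w ≠ 0
  two : ∀ s ∈ W, (W.map Step.e).count s.e = 2
  adj : ∀ (A B : List (Step E F)) (s t : Step E F), W = A ++ s :: t :: B → s.e = t.e → s.d ≠ t.d → s.w ≠ t.w

end words

section lifts

variable {X V F : Type} [Field F] [AddCommGroup V] [Module F V]

/-- the chosen point of the pair `{x, τ x}` -/
def rep (τ : X → X) (r : X → Bool) (x : X) : X := if r x then x else τ x

/-- step number `j` of the path -/
def stp (o : X) (τ : X → X) (r : X → Bool) (T : X ≃ X) (α : F) (j : ℕ) : Step X F :=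
  if j % 2 = 0 then ⟨rep τ r (T.symm (zz o τ T j)), r (T.symm (zz o τ T j)), α⟩
  else ⟨rep τ r (zz o τ T j), r (zz o τ T j), 1⟩

/-- the fibre map over a point `x ≠ o` -/
def fm (τ : X → X) (r : X → Bool) (l : X → F) (c : X → V) (x : X) (u : V) : V :=
  if r x then l x • u + c x else (l (τ x))⁻¹ • (u - c (τ x))

/-- the lifted involution -/
def lft [DecidableEq X] (o : X) (τ : X → X) (r : X → Bool) (sV : V → V) (l : X → F) (c : X → V)
    (v : X × V) : X × V :=
  if v.1 = o then (o, sV v.2) else (τ v.1, fm τ r l c v.1 v.2)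

/-- the lifted bijection `(x, u) ↦ (T x, α u + t x)` -/
def tl (T : X ≃ X) (α : Fˣ) (t : X → V) : X × V ≃ X × V where
  toFun v := (T v.1, α • v.2 + t v.1)
  invFun v := (T.symm v.1, α⁻¹ • (v.2 - t (T.symm v.1)))
  left_inv v := by simp
  right_inv v := by simp

/-- `v ↦ a v + z` -/
def af (a : Fˣ) (z : V) : V ≃ V where
  toFun v := a • v + z
  invFun v := a⁻¹ • (v - z)
  left_inv v := by simp
  right_inv v := by simp

end lifts

/-- a starter of an additive group, as an involution -/
structure St {V : Type} [AddGroup V] (σ : V → V) : Prop where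
  inv : Inv 0 σ
  qt : ∀ h : V, h ≠ 0 → ∃ x, x ≠ 0 ∧ x - σ x = h

/-- a starter of a group, as an involution -/
structure StG {G : Type} [Group G] (f : G → G) : Prop where
  inv : Inv 1 f
  qt : ∀ h : G, h ≠ 1 → ∃ x, x ≠ 1 ∧ x * (f x)⁻¹ = h

/-- the nonsquares modulo `p` -/
def NS (p : ℕ) : Type := {a : ZMod p // ¬ IsSquare a}

/-- the value of a nonsquare -/
def NS.val {p : ℕ} (a : NS p) : ZMod p := Subtype.val a

/-- a family of starters of `V`, `|V| = p ^ (k + 1)`, such that for all `a` the average number of good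
`v ↦ a v + z` is at least `(p - 1) (p - 3) ^ k` -/
def Fam (p : ℕ) [Fact p.Prime] (V : Type) [AddCommGroup V] [Module (ZMod p) V] (k : ℕ) : Prop :=
  ∃ (Ω : Type) (_ : Finite Ω) (_ : Nonempty Ω) (σ : Ω → V → V), (∀ ω, St (σ ω)) ∧
    ∀ a : (ZMod p)ˣ, (p - 1) * (p - 3) ^ k * Nat.card Ω ≤
      Nat.card {q : Ω × V // Gd (σ q.1) (af a q.2)}

/-- the number of the good elements of a group -/
noncomputable def ng {G : Type} [Group G] (f : G → G) : ℕ :=
  Nat.card {h : G // Gd f (Equiv.mulRight h)}

/-- the product of `2` for every prime factor `3` and `p - 3` for every other prime factor `p` of `n`, with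
multiplicity -/
def WW (n : ℕ) : ℕ := (n.primeFactorsList.map fun p => if p = 3 then 2 else p - 3).prod

/-- the union of the one-factors `F_g` and `F_h` (as in the frozen statement) -/
def UG {G : Type} [Group G] (f : G → G) (g h : G) : SimpleGraph (Option G) :=
  SimpleGraph.fromRel (fun u v : Option G =>
      (u = Option.none ∧ v = Option.some g) ∨
      ∃ x : G, x ≠ 1 ∧ u = Option.some (x * g) ∧ v = Option.some (f x * g)) ⊔
    SimpleGraph.fromRel (fun u v : Option G =>
      (u = Option.none ∧ v = Option.some h) ∨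
      ∃ x : G, x ≠ 1 ∧ u = Option.some (x * h) ∧ v = Option.some (f x * h))

/-- `G` is an extension of `Q` by the vector space `V` -/
structure Ext (p : ℕ) (G Q V : Type) [Group G] [Group Q] [AddCommGroup V] [Module (ZMod p) V] where
  pr : G →* Q
  em : V → G
  sec : Q → G
  chi : G → V → V
  em_add : ∀ u v, em (u + v) = em u * em v
  em_inj : Function.Injective em
  ker : ∀ g, pr g = 1 → ∃ u, em u = g
  pr_em : ∀ u, pr (em u) = 1
  pr_sec : ∀ q, pr (sec q) = q
  sec_one : sec 1 = 1
  conj : ∀ g u, g * em u * g⁻¹ = em (chi g u)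

/-- the bijection `(x, u) ↦ em u * sec x` -/
noncomputable def Ext.E {p : ℕ} {G Q V : Type} [Group G] [Group Q] [AddCommGroup V] [Module (ZMod p) V]
    (D : Ext p G Q V) : Q × V ≃ G :=
  Equiv.ofBijective (fun v : Q × V => D.em v.2 * D.sec v.1) (by
    constructor
    · rintro ⟨x, u⟩ ⟨y, v⟩ h
      simp only at h
      have h1 := congrArg D.pr h
      rw [map_mul, map_mul, D.pr_em, D.pr_em, D.pr_sec, D.pr_sec, one_mul, one_mul] at h1
      subst h1
      have h2 := D.em_inj (mul_right_cancel h)
      rw [h2]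
    · intro g
      obtain ⟨u, hu⟩ := D.ker (g * (D.sec (D.pr g))⁻¹) (by
        rw [map_mul, map_inv, D.pr_sec, mul_inv_cancel])
      exact ⟨(D.pr g, u), by simp only [hu, inv_mul_cancel_right]⟩)

theorem Ext.E_apply {p : ℕ} {G Q V : Type} [Group G] [Group Q] [AddCommGroup V] [Module (ZMod p) V]
    (D : Ext p G Q V) (v : Q × V) : D.E v = D.em v.2 * D.sec v.1 := rfl

end Pool.Agent.PFS
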