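import Pool.Agent.helper12.PFS.Spec

set_option autoImplicit false

namespace Pool.Agent.PFS

theorem FIN_one {G : Type} [Group G] [Finite G] (h1 : Nat.card G = 1) :
    ∃ f : G → G, StG f ∧ WW (Nat.card G) ≤ ng f := by
  have : Subsingleton G := (Nat.card_eq_one_iff_unique.1 h1).1
  refine ⟨id, ⟨⟨fun x => rfl, fun x => ⟨fun _ => Subsingleton.elim _ _, fun _ => rfl⟩⟩,
    fun h hh => (hh (Subsingleton.elim _ _)).elim⟩, ?_⟩
  have hW : WW (Nat.card G) = 1 := by
    rw [h1]
    unfold WW
    simp
  rw [hW]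
  unfold ng
  rw [Nat.one_le_iff_ne_zero, Nat.card_ne_zero]
  refine ⟨⟨⟨1, ?_⟩⟩, inferInstance⟩
  intro x y
  exact ⟨0, Subsingleton.elim _ _⟩

theorem FIN (h1 : STP_stmt) (h2 : TRV_stmt) (h3 : RT3_stmt) (h4 : CHF_stmt) (h5 : EXX_stmt) (h6 : WMU_stmt) :
    FIN_stmt := by
  have key : ∀ n : ℕ, ∀ (G : Type) [Group G] [Finite G], Nat.card G = n → Group.IsSolvable G → Odd (Nat.card G) →
      ¬ 9 ∣ Nat.card G → ∃ f : G → G, StG f ∧ WW (Nat.card G) ≤ ng f := by
    intro n
    induction n using Nat.strong_induction_on with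
    | _ n ih =>
      intro G _ _ hn hs hodd h9
      have hpos : 0 < Nat.card G := Nat.card_pos
      rcases Nat.lt_or_ge 1 (Nat.card G) with hlt | hge
      · obtain ⟨p, K, hp, hK, hK1, hcom, hexp⟩ := h4 G hs hlt
        have : Fact p.Prime := ⟨hp⟩
        have := hK
        obtain ⟨V, iA, iM, iF, k, hV, ⟨D⟩⟩ := h5 G p K hK1 hcom hexp
        have hcard : Nat.card G = p ^ (k + 1) * Nat.card (G ⧸ K) := by
          rw [← Nat.card_congr D.E, Nat.card_prod, hV, mul_comm]
        have hQpos : 0 < Nat.card (G ⧸ K) := Nat.card_pos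
        have hpk : 1 < p ^ (k + 1) := Nat.one_lt_pow (Nat.succ_ne_zero k) hp.one_lt
        have hQlt : Nat.card (G ⧸ K) < n := by
          rw [← hn, hcard]
          exact lt_mul_left hQpos hpk
        have hQodd : Odd (Nat.card (G ⧸ K)) := by
          rw [hcard] at hodd
          exact (Nat.odd_mul.1 hodd).2
        have hpodd : Odd (p ^ (k + 1)) := by
          rw [hcard] at hodd
          exact (Nat.odd_mul.1 hodd).1
        have hp2 : p ≠ 2 := by
          rintro rfl
          rw [pow_succ] at hpodd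
          exact absurd (Nat.odd_mul.1 hpodd).2 (by decide)
        have hQ9 : ¬ 9 ∣ Nat.card (G ⧸ K) := fun h => h9 (by rw [hcard]; exact Dvd.dvd.mul_left h _)
        have := hs
        have hQs : Group.IsSolvable (G ⧸ K) := inferInstance
        obtain ⟨f, hf, hfn⟩ := ih _ hQlt (G ⧸ K) rfl hQs hQodd hQ9
        have hW : WW (Nat.card G) = (if p = 3 then 2 else p - 3) ^ (k + 1) * WW (Nat.card (G ⧸ K)) := by
          rw [hcard]
          exact h6 p (k + 1) _ hp hQpos.ne'
        by_cases h3p : p = 3
        · subst h3p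
          have hk : k = 0 := by
            by_contra hk
            apply h9
            rw [hcard]
            obtain ⟨j, rfl⟩ := Nat.exists_eq_succ_of_ne_zero hk
            refine Dvd.dvd.mul_right ?_ _
            exact ⟨3 ^ j, by rw [Nat.succ_eq_add_one]; ring⟩
          subst hk
          have hQ3 : ¬ 3 ∣ Nat.card (G ⧸ K) := by
            intro h
            apply h9
            rw [hcard]
            obtain ⟨j, hj⟩ := h
            exact ⟨j, by rw [hj]; ring⟩
          obtain ⟨f', hf', hn'⟩ := h3 G (G ⧸ K) V D f (by rw [hV]; norm_num) hodd hQ3 hf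
          refine ⟨f', hf', ?_⟩
          rw [hW]
          simp only [if_true, zero_add, pow_one]
          exact le_trans (Nat.mul_le_mul_left 2 hfn) hn'
        · rw [if_neg h3p] at hW
          rcases Nat.lt_or_ge 1 (Nat.card (G ⧸ K)) with hQ1 | hQ1
          · obtain ⟨f', hf', hn'⟩ := h1 p G (G ⧸ K) V D k f hp2 hV hodd hf hQ1
            refine ⟨f', hf', ?_⟩
            rw [hW]
            exact le_trans (Nat.mul_le_mul_left _ hfn) hn'
          · have hQe : Nat.card (G ⧸ K) = 1 := le_antisymm hQ1 hQpos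
            obtain ⟨f', hf', hn'⟩ := h2 p G (G ⧸ K) V D k hp2 hV hQe
            refine ⟨f', hf', ?_⟩
            rw [hW, hQe]
            have : WW 1 = 1 := by unfold WW; simp
            rw [this, mul_one]
            exact hn'
      · exact FIN_one (le_antisymm hge hpos)
  intro G _ _ hs hodd h9
  exact key _ G rfl hs hodd h9

end Pool.Agent.PFS
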