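import Pool.Agent.helper12.PFS.Spec

set_option autoImplicit false

namespace Pool.Agent.PFS

theorem RT3_three {V : Type} [AddCommGroup V] [Finite V] (hV : Nat.card V = 3) (u : V) : u + u + u = 0 := by
  have h : Nat.card V • u = 0 := card_nsmul_eq_zero'
  rw [hV, succ_nsmul, two_nsmul] at h
  exact h

theorem RT3_negne {V : Type} [AddCommGroup V] [Finite V] (hV : Nat.card V = 3) (u : V) (hu : u ≠ 0) : -u ≠ u := by
  intro h
  apply hu
  have h3 := RT3_three hV u
  have h2 : u + u = 0 := by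
    nth_rewrite 1 [← h]
    exact neg_add_cancel u
  rw [h2, zero_add] at h3
  exact h3

theorem RT3_cases {V : Type} [AddCommGroup V] [Finite V] (hV : Nat.card V = 3) (u v : V) (hu : u ≠ 0) :
    v = 0 ∨ v = u ∨ v = -u := by
  classical
  by_contra hcon
  push Not at hcon
  obtain ⟨h0, h1, h2⟩ := hcon
  have := Fintype.ofFinite V
  have hne := RT3_negne hV u hu
  have hcard : ({0, u, -u, v} : Finset V).card = 4 := by
    rw [Finset.card_insert_of_notMem, Finset.card_insert_of_notMem, Finset.card_insert_of_notMem,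
      Finset.card_singleton]
    · simp only [Finset.mem_singleton]
      exact fun h => h2 h.symm
    · simp only [Finset.mem_insert, Finset.mem_singleton, not_or]
      exact ⟨fun h => hne h.symm, fun h => h1 h.symm⟩
    · simp only [Finset.mem_insert, Finset.mem_singleton, not_or]
      exact ⟨fun h => hu h.symm, fun h => hu (neg_eq_zero.1 h.symm), fun h => h0 h.symm⟩
  have hle := Finset.card_le_univ ({0, u, -u, v} : Finset V)
  rw [hcard, ← Nat.card_eq_fintype_card, hV] at hle
  omega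

theorem RT3_em0 {p : ℕ} {G Q V : Type} [Group G] [Group Q] [AddCommGroup V] [Module (ZMod p) V]
    (D : Ext p G Q V) : D.em 0 = 1 := by
  have h := D.em_add 0 0
  rw [add_zero] at h
  exact (left_eq_mul.1 h)

theorem RT3_emneg {p : ℕ} {G Q V : Type} [Group G] [Group Q] [AddCommGroup V] [Module (ZMod p) V]
    (D : Ext p G Q V) (u : V) : D.em (-u) = (D.em u)⁻¹ := by
  have h := D.em_add (-u) u
  rw [neg_add_cancel, RT3_em0] at h
  exact eq_inv_of_mul_eq_one_left h.symm

theorem RT3_central {G Q V : Type} [Group G] [Finite G] [Group Q] [AddCommGroup V] [Module (ZMod 3) V] [Finite V]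
    (D : Ext 3 G Q V) (hV : Nat.card V = 3) (hodd : Odd (Nat.card G)) (g : G) (u : V) :
    g * D.em u = D.em u * g := by
  by_cases hu : u = 0
  · rw [hu, RT3_em0, mul_one, one_mul]
  · rcases RT3_cases hV u (D.chi g u) hu with h | h | h
    · exfalso
      apply hu
      have hc := D.conj g u
      rw [h, RT3_em0] at hc
      have h1 : D.em u = 1 := by
        have : g * D.em u = g := by
          rw [← mul_inv_eq_one]
          exact hc
        exact mul_eq_left.1 this
      rw [← RT3_em0 D] at h1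
      exact D.em_inj h1
    · have hc := D.conj g u
      rw [h] at hc
      exact mul_inv_eq_iff_eq_mul.1 hc
    · have hc := D.conj g u
      rw [h, RT3_emneg] at hc
      have hc' : g * D.em u = (D.em u)⁻¹ * g := mul_inv_eq_iff_eq_mul.1 hc
      have hc2 : g * (D.em u)⁻¹ = D.em u * g := by
        have := congrArg (fun x => D.em u * x * (D.em u)⁻¹) hc'
        rw [← mul_assoc, mul_inv_cancel_right, ← mul_assoc, mul_inv_cancel, one_mul] at this
        exact this.symm
      have hsq : Commute (g ^ 2) (D.em u) := by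
        unfold Commute SemiconjBy
        rw [pow_two, mul_assoc, hc', ← mul_assoc, hc2, mul_assoc]
      obtain ⟨m, hm⟩ := hodd
      have hg : g * (g ^ 2) ^ m = 1 := by
        rw [← pow_mul, ← pow_succ', ← hm]
        exact pow_card_eq_one'
      have hg2 : g = ((g ^ 2) ^ m)⁻¹ := eq_inv_of_mul_eq_one_left hg
      have hcm : Commute (((g ^ 2) ^ m)⁻¹) (D.em u) := (hsq.pow_left m).inv_left
      rw [← hg2] at hcm
      exact hcm

theorem RT3_stneg {V : Type} [AddCommGroup V] [Finite V] (hV : Nat.card V = 3) : St (fun u : V => -u) := by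
  refine ⟨⟨fun x => neg_neg x, fun x => ⟨fun h => ?_, fun h => ?_⟩⟩, fun h hh => ⟨-h, neg_ne_zero.2 hh, ?_⟩⟩
  · by_contra hx
    exact RT3_negne hV x hx h
  · simp only [h, neg_zero]
  · simp only [neg_neg]
    have h3 := RT3_three hV h
    have : -h - h = h := by
      rw [← sub_eq_zero]
      have : -h - h - h = -(h + h + h) := by abel
      rw [this, h3, neg_zero]
    exact this

theorem RT3_two {V : Type} [AddCommGroup V] [Finite V] (hV : Nat.card V = 3) (n : ℕ) (hn : ¬ 3 ∣ n) (M : V) :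
    ∃ k1 k2 : V, k1 ≠ k2 ∧ M + n • k1 ≠ 0 ∧ M + n • k2 ≠ 0 := by
  have hinj : ∀ k k' : V, M + n • k = 0 → M + n • k' = 0 → k = k' := by
    intro k k' h h'
    have h1 : n • (k - k') = 0 := by
      rw [smul_sub, sub_eq_zero]
      exact add_left_cancel (h.trans h'.symm)
    have h2 : (3 : ℕ) • (k - k') = 0 := by
      have h3 : Nat.card V • (k - k') = 0 := card_nsmul_eq_zero'
      rw [hV] at h3
      exact h3
    have h3 : addOrderOf (k - k') ∣ n := addOrderOf_dvd_iff_nsmul_eq_zero.2 h1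
    have h4 : addOrderOf (k - k') ∣ 3 := addOrderOf_dvd_iff_nsmul_eq_zero.2 h2
    have h5 : addOrderOf (k - k') = 1 := by
      rcases (Nat.dvd_prime Nat.prime_three).1 h4 with h5 | h5
      · exact h5
      · rw [h5] at h3
        exact (hn h3).elim
    exact sub_eq_zero.1 (AddMonoid.addOrderOf_eq_one_iff.1 h5)
  have hnt : Nontrivial V := by
    rw [← Finite.one_lt_card_iff_nontrivial, hV]
    norm_num
  obtain ⟨u, hu⟩ := exists_ne (0 : V)
  have hne := RT3_negne hV u hu
  by_cases h0 : M + n • (0 : V) = 0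
  · refine ⟨u, -u, fun h => hne h.symm, fun h => hu (hinj _ _ h h0), fun h => hu ?_⟩
    exact neg_eq_zero.1 (hinj _ _ h h0)
  · by_cases h1 : M + n • u = 0
    · exact ⟨0, -u, fun h => hu (neg_eq_zero.1 h.symm), h0, fun h => hne (hinj _ _ h h1)⟩
    · exact ⟨0, u, fun h => hu h.symm, h0, h1⟩

theorem RT3 (h1 : STG_stmt) (h2 : RM_stmt) (h3 : CJ_stmt) (h4 : SKW_stmt) (h5 : REP_stmt) : RT3_stmt := by
  intro G Q V _ _ _ _ _ _ _ D f hV hodd h3Q hf
  classical
  have := Fintype.ofFinite Q
  obtain ⟨r, hr⟩ := h5 Q 1 f hf.inv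
  have hl : ∀ x : Q, ¬ IsSquare ((fun _ => -1 : Q → ZMod 3) x) := by
    intro x
    rintro ⟨y, hy⟩
    have hy2 : ∀ y : ZMod 3, (-1 : ZMod 3) ≠ y * y := by decide
    exact hy2 y hy
  have hst := h1 3 G Q V D f r (fun u => -u) (fun _ => -1) (fun _ => 0) hodd hf hr (RT3_stneg hV) hl
  refine ⟨_, hst, ?_⟩
  have hlft : ∀ v : Q × V, lft 1 f r (fun u : V => -u) (fun _ => (-1 : ZMod 3)) (fun _ => (0 : V)) v =
      (f v.1, -v.2) := by
    intro v
    unfold lft
    split_ifs with hv
    · rw [hv, (hf.inv.fix 1).2 rfl]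
    · unfold fm
      split_ifs with hrv
      · simp only [neg_smul, one_smul, add_zero]
      · have : ((-1 : ZMod 3))⁻¹ = -1 := inv_neg_one
        rw [this, sub_zero, neg_smul, one_smul]
  -- the good elements over a good `q`
  have key : ∀ q : {q : Q // Gd f (Equiv.mulRight q)}, ∃ k1 k2 : V, k1 ≠ k2 ∧
      Gd (fun g => D.E (lft 1 f r (fun u : V => -u) (fun _ => (-1 : ZMod 3)) (fun _ => (0 : V)) (D.E.symm g)))
        (Equiv.mulRight (D.sec q.1 * D.em k1)) ∧
      Gd (fun g => D.E (lft 1 f r (fun u : V => -u) (fun _ => (-1 : ZMod 3)) (fun _ => (0 : V)) (D.E.symm g)))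
        (Equiv.mulRight (D.sec q.1 * D.em k2)) := by
    rintro ⟨q, hq⟩
    obtain ⟨t, ht⟩ := h2 3 G Q V D (D.sec q)
    rw [D.pr_sec] at ht
    obtain ⟨k1, k2, hk, hk1, hk2⟩ := RT3_two hV (Fintype.card Q)
      (by rw [← Nat.card_eq_fintype_card]; exact h3Q) (∑ x : Q, (-(t (x * q⁻¹)) - t (f (x * q⁻¹))))
    have main : ∀ k : V, (∑ x : Q, (-(t (x * q⁻¹)) - t (f (x * q⁻¹)))) + Fintype.card Q • k ≠ 0 →
        Gd (fun g => D.E (lft 1 f r (fun u : V => -u) (fun _ => (-1 : ZMod 3)) (fun _ => (0 : V)) (D.E.symm g)))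
          (Equiv.mulRight (D.sec q * D.em k)) := by
      intro k hk
      apply h3 (Q × V) G D.E _ (tl (Equiv.mulRight q) (1 : (ZMod 3)ˣ) (fun x => t x + k))
      · intro v
        show D.E v * (D.sec q * D.em k) = _
        rw [← mul_assoc, ht v, RT3_central D hV hodd, Ext.E_apply, Ext.E_apply, ← mul_assoc, ← D.em_add]
        congr 2
        show k + ((1 : (ZMod 3)ˣ) • v.2 + t v.1) = (1 : (ZMod 3)ˣ) • v.2 + (t v.1 + k)
        abel
      · have hrho : rho (lft 1 f r (fun u : V => -u) (fun _ => (-1 : ZMod 3)) (fun _ => (0 : V)))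
            (tl (Equiv.mulRight q) (1 : (ZMod 3)ˣ) (fun x => t x + k)) =
            fun v : Q × V => (rho f (Equiv.mulRight q) v.1,
              v.2 + ((-(t (v.1 * q⁻¹)) - t (f (v.1 * q⁻¹))) + k)) := by
          funext v
          unfold rho
          rw [hlft, hlft]
          have h3k := RT3_three hV k
          refine Prod.ext rfl ?_
          show -((1 : (ZMod 3)ˣ) • (-(((1 : (ZMod 3)ˣ)⁻¹) • (v.2 - (t (v.1 * q⁻¹) + k)))) +
            (t (f (v.1 * q⁻¹)) + k)) = v.2 + ((-(t (v.1 * q⁻¹)) - t (f (v.1 * q⁻¹))) + k)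
          rw [inv_one, one_smul, one_smul, ← sub_eq_zero]
          have : -(-(v.2 - (t (v.1 * q⁻¹) + k)) + (t (f (v.1 * q⁻¹)) + k)) -
              (v.2 + ((-(t (v.1 * q⁻¹)) - t (f (v.1 * q⁻¹))) + k)) = -(k + k + k) := by abel
          rw [this, h3k, neg_zero]
        unfold Gd
        rw [hrho]
        apply h4 Q V (rho f (Equiv.mulRight q)) (fun x => (-(t (x * q⁻¹)) - t (f (x * q⁻¹))) + k) hV hq
        rw [Finset.sum_add_distrib, Finset.sum_const, Finset.card_univ]
        exact hk
    exact ⟨k1, k2, hk, main k1 hk1, main k2 hk2⟩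
  choose k1 k2 hk hk1 hk2 using key
  have hcard : 2 * ng f = Nat.card ({q : Q // Gd f (Equiv.mulRight q)} × Bool) := by
    rw [Nat.card_prod, Nat.card_eq_fintype_card (α := Bool), Fintype.card_bool, mul_comm]
    rfl
  rw [hcard]
  unfold ng
  refine Nat.card_le_card_of_injective (fun w : {q : Q // Gd f (Equiv.mulRight q)} × Bool =>
    (⟨D.sec w.1.1 * D.em (if w.2 then k1 w.1 else k2 w.1), by
      by_cases hw : w.2
      · rw [if_pos hw]
        exact hk1 w.1
      · rw [if_neg hw]
        exact hk2 w.1⟩ : {g : G // Gd (fun g => D.E (lft 1 f r (fun u : V => -u) (fun _ => (-1 : ZMod 3))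
          (fun _ => (0 : V)) (D.E.symm g))) (Equiv.mulRight g)})) ?_
  rintro ⟨q, b⟩ ⟨q', b'⟩ h
  have h' := congrArg Subtype.val h
  simp only at h'
  have hq : q = q' := by
    apply Subtype.ext
    have := congrArg D.pr h'
    rw [map_mul, map_mul, D.pr_em, D.pr_em, D.pr_sec, D.pr_sec, mul_one, mul_one] at this
    exact this
  subst hq
  have hkk := D.em_inj (mul_left_cancel h')
  cases b <;> cases b' <;> simp only [if_true, Bool.false_eq_true, if_false] at hkk ⊢
  · exact (hk q hkk.symm).elim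
  · exact (hk q hkk).elim

end Pool.Agent.PFS
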