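import Pool.Agent.helper12.PFS.Defs

/-!
# Almost perfect starters (MP_16a903_co): the rows

Every finite solvable group `G` of odd order `n > 1`, `9 ∤ n`, has a starter such that for at least `n * WW n` ordered
pairs `(g, h)` the union of the one-factors `F_g`, `F_h` is a Hamiltonian cycle.

Notation in the docstrings: `ρ = rho τ T`, `τ' = T τ T⁻¹`, so `ρ = τ τ'`, `z_n = zz o τ T n`, `λ = l`.
-/

set_option autoImplicit false

namespace Pool.Agent.PFS

/-- WL (word lemma). PROOF. `W` is not empty, and its letters occur twice, so there is a factorization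
`W = A ++ s1 :: B ++ s2 :: C` with `s1.e = s2.e`; take one with `B.length` minimal (`Nat.find`), `e := s1.e`. `e` does not
occur in `A`, `B`, `C`, so (unfolding `kap` along `++`) `kap l W e = (cw l s1 * (B.map (mu l)).prod * mu l s2 + cw l s2) *
(C.map (mu l)).prod`, and the last product is not `0`. So `kap l W e = 0` iff (*): `cw l s1 * prod B * mu l s2 + cw l s2 = 0`.
Case `B ≠ []`. Take a step `b` of `B`, `e' := b.e`. `e' ≠ e`. `e'` occurs only once in `B` (a second occurrence in `B` would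
give a shorter factorization). So in (*) everything except the factor `mu l b = (l e')^(±1)` of `prod B` does not depend on
`l e'`, and the other factors are not `0` (`l ≠ 0` everywhere, weights `≠ 0`): for given `l x`, `x ≠ e'`, at most one value
`l e'` satisfies (*). Case `B = []`: `s1`, `s2` are adjacent. (*) is `cw l s1 * mu l s2 + cw l s2 = 0`; with `y = l e`:
directions (true, true): `w1 y + w2 = 0`, (false, false): `-w1 y⁻¹ y⁻¹ - w2 y⁻¹ = 0`, i.e. `w1 y⁻¹ = -w2`: at most one value `y`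
(`w1 ≠ 0`); (true, false): `w1 y⁻¹ - w2 y⁻¹ = 0`, (false, true): `-w1 y⁻¹ y + w2 = 0`: both say `w1 = w2`, excluded by
`Wd.adj`. So in every case there is a letter `e'` such that two bad `l : E → S` which agree off `e'` are equal. Then
`(l, s) ↦ Function.update l e' s` is injective on bad × S (it determines `s`, `l` off `e'`, so `l`), so
`#bad * card S ≤ card S ^ card E`. -/
def WL_stmt : Prop :=
  ∀ (E F S : Type) [Fintype E] [DecidableEq E] [Field F] [Finite S] (ι : S → F) (W : List (Step E F)),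
    Function.Injective ι → (∀ s, ι s ≠ 0) → Wd W →
    Nat.card {l : E → S // ∀ e, kap (fun x => ι (l x)) W e = 0} * Nat.card S ≤ Nat.card S ^ Fintype.card E

/-- UNI. PROOF. `c ↦ ∑ e, k e • c e` is a surjective additive homomorphism `(E → V) → V` (take `c` with one nonzero entry
`(k e)⁻¹ • y`), all its fibres have the same number of elements. -/
def UNI_stmt : Prop :=
  ∀ (E F V : Type) [Fintype E] [Field F] [AddCommGroup V] [Module F V] [Finite V] (k : E → F) (y : V),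
    (∃ e, k e ≠ 0) →
    Nat.card {c : E → V // ∑ e, k e • c e = y} * Nat.card V = Nat.card V ^ Fintype.card E

/-- REP. PROOF. With a linear order (`linearOrderOfSTO WellOrderingRel` or `exists_wellOrder`) `r x := decide (x < τ x)`. For
`x ≠ o` we have `τ x ≠ x`, `τ (τ x) = x`. -/
def REP_stmt : Prop :=
  ∀ (X : Type) (o : X) (τ : X → X), Inv o τ → ∃ r : X → Bool, Rp o τ r

/-- LIN: the lift of an involution is an involution. PROOF. Over `x ≠ o`: `τ x ≠ o`, exactly one of `r x`, `r (τ x)` is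
true, and the two maps `u ↦ l x • u + c x`, `u ↦ (l x)⁻¹ • (u - c x)` are inverse to each other. Fixed point: `v.1 = o` (else
`τ v.1 = v.1`), then `sV v.2 = v.2`, i.e. `v.2 = 0`. -/
def LIN_stmt : Prop :=
  ∀ (X V F : Type) [DecidableEq X] [Field F] [AddCommGroup V] [Module F V] (o : X) (τ : X → X) (r : X → Bool)
    (sV : V → V) (l : X → F) (c : X → V), Inv o τ → Rp o τ r → Inv 0 sV → (∀ x, l x ≠ 0) →
    Inv (o, (0 : V)) (lft o τ r sV l c)

/-- CYC. PROOF. `Nat.card X` is odd (`τ` is an involution with exactly one fixed point), `N = 2 h + 1`. `ρ` is a bijection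
and transitive, so a cycle of length `N`: `ρ^N = id` and `i ↦ ρ^i o`, `i < N`, is bijective. `ρ^n o = z_{2n}` (induction; at the even
step `τ'`, then `τ`). `τ ρ τ = τ' τ = ρ⁻¹` and `τ ρ = τ'`. So `z_{2i+1} = τ' ρ^i o = τ ρ^{i+1} o = ρ^{-(i+1)} τ o =
ρ^{-(i+1)} o`, `= ρ^{N-i-1} o` for `i + 1 ≤ N`. For `i = h` this is `ρ^h o = z_{2h}`: `τ'` fixes `z_{2h}`, so `τ` fixes
`T⁻¹ z_{2h}`, so `z_{2h} = T o`. Injectivity: for `i ≤ h` the exponents are `i` (even index `2i`) and `2h - i`, `i < h` (odd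
index `2i + 1`), all different and `≤ 2h`; surjective by counting. -/
def CYC_stmt : Prop :=
  ∀ (X : Type) [Finite X] (o : X) (τ : X → X) (T : X ≃ X), Inv o τ → Gd τ T → ∃ h : ℕ, Cyc o τ T h

/-- WKA: the words of the path. PROOF. `W = (List.range (2 * h)).map (stp ...)`. `ne`: `h > 0`. `w0`: weights `α`, `1`.
`z_j` for odd `j < 2h` is `≠ o` (`z_0 = o`, injectivity), and `T⁻¹ z_j` for even `j < 2h` is `≠ o` (`z_{2h} = T o`).
`two`: let `e` be a letter of `W`, so `e = rep x` for some `x ≠ o`, so `e ≠ o`, `r e = true`; for `y ≠ o`: `rep y = e` iff `y = e`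
or `y = τ e`. Odd `j = 2i+1 < 2h`: the sets `{z_{2i+1}, z_{2i+2}}`, `z_{2i+2} = τ z_{2i+1}`, are disjoint and cover all points `≠ o =
z_0`, so exactly one odd `j` has letter `e`. Even `j = 2i`: the sets `{z_{2i}, z_{2i+1}}`, `z_{2i+1} = T τ T⁻¹ z_{2i}`, are
disjoint and cover all points `≠ T o = z_{2h}`, so exactly one even `j` has `T⁻¹ z_j ∈ {e, τ e}`. So `e` occurs exactly twice.
`adj`: two adjacent steps are `j`, `j + 1`; the weights are `α` and `1`; suppose they are equal: `α = 1`, so `T` has no fixed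
point. `j = 2i`: `x = T⁻¹ z_{2i}`, the next point is `y = z_{2i+1} = T τ x`; same letter: `y = x` or `y = τ x`; directions
`r x ≠ r y`, so `y ≠ x`, so `y = τ x = T (τ x)`: `T` has a fixed point. `j = 2i+1`: `y = z_j`, `z_{j+1} = τ y`, `x = T⁻¹ τ y`;
same letter, different directions: `x = τ y`, so `T (τ y) = τ y`, again a fixed point. -/
def WKA_stmt : Prop :=
  ∀ (X F : Type) [Finite X] [DecidableEq X] [Field F] (o : X) (τ : X → X) (r : X → Bool) (T : X ≃ X) (α : Fˣ) (h : ℕ),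
    Inv o τ → Rp o τ r → Cyc o τ T h → 0 < h → (α = 1 → ∀ x, T x ≠ x) →
    Wd ((List.range (2 * h)).map (stp o τ r T (α : F)))

/-- WKB: the path of the lift. PROOF. Induction on `n ≤ h`: for all `l` there are `Λ`, `k0` such that for all `c`, `u`:
`(rho ..)^[n] (o, u) = (z_{2n}, Λ • u + ∑ e, kap l W_n e • c e + k0)`, `W_n = (List.range (2 * n)).map (stp ..)`. (`n = h`: `z_{2h}
= T o`.) One step of `rho` is the lifted `τ'`, then the lifted `τ`. If the value before a step `s` is `Λ • u + ∑ e, K e • c e + k0`,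
it is afterwards `mu l s • (..) + cw l s • c s.e + const`; and `kap l (W ++ [s]) e = kap l W e * mu l s + (if s.e = e then
cw l s else 0)` (induction on `W`). Step `τ'` at `z = z_{2n}`, `x = T⁻¹ z ≠ o`: `(z, u) ↦ (x, α⁻¹ • (u - t x)) ↦
(τ x, fm ..) ↦ (T (τ x), α • fm .. + t (τ x))`. If `r x`: `l x • u + α • c x + const`, the step is `⟨x, true, α⟩`. If not:
`(l (τ x))⁻¹ • u - (α * (l (τ x))⁻¹) • c (τ x) + const`, the step is `⟨τ x, false, α⟩`. Step `τ` at `z_{2n+1} ≠ o`: the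
same without `T`, with weight `1`. Note `z_j ≠ o` for odd `j < 2h`, `T⁻¹ z_j ≠ o` for even `j < 2h` (`Cyc.inj`, `Cyc.last`). -/
def WKB_stmt : Prop :=
  ∀ (X V F : Type) [Fintype X] [DecidableEq X] [Field F] [AddCommGroup V] [Module F V]
    (o : X) (τ : X → X) (r : X → Bool) (T : X ≃ X) (α : Fˣ) (t : X → V) (h : ℕ) (sV : V → V) (l : X → F),
    Inv o τ → Rp o τ r → Cyc o τ T h → (∀ x, l x ≠ 0) →
    ∃ (Λ : Fˣ) (k0 : V), ∀ (c : X → V) (u : V),
      (rho (lft o τ r sV l c) (tl T α t))^[h] (o, u) =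
        (T o, Λ • u + ∑ e, kap l ((List.range (2 * h)).map (stp o τ r T (α : F))) e • c e + k0)

/-- RET (return map). PROOF. `S' := T2 S T2⁻¹`, `R := rho S T2 = S S'` (functions), `R` is a bijection with inverse `S' S`.
`S' R S' = R⁻¹`, so `S' R^h = R^{-h} S'`. `S' (T o, u) = T2 S (o, t2⁻¹ u) = (T o, t2 (sV (t2⁻¹ u)))`.
`R^{2h+1} (o, u) = R^{h+1} (T o, Φ u)`, and `R^{h+1} = S S' R^h = S R^{-h} S'`, so this is `S R^{-h} (T o, t2 (sV (t2⁻¹ (Φ u)))) =
S (o, Φ⁻¹ (t2 (sV (t2⁻¹ (Φ u))))) = (o, sV (Φ⁻¹ (t2 (sV (t2⁻¹ (Φ u)))))) = (o, rho sV T1 u)` with `T1 = t2.trans Φ.symm`. So,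
as `rho sV T1` is transitive: from `(o, u)` we reach every `(o, u')`. From `(x, u)` we reach a point over `o` (`R` lies over
`rho τ T`, which is transitive). And `(rho τ T)^m o = y` for some `m`; `R^m` maps `{o} × V` injectively into `{y} × V`, so
(finite, same number of elements) onto. So `R` is transitive. -/
def RET_stmt : Prop :=
  ∀ (X V : Type) [Finite X] [Finite V] (o : X) (τ : X → X) (T : X ≃ X) (S : X × V → X × V) (T2 : X × V ≃ X × V)
    (sV : V → V) (t2 Φ : V ≃ V) (h : ℕ),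
    (∀ v, S (S v) = v) → (∀ v, (S v).1 = τ v.1) → (∀ u, S (o, u) = (o, sV u)) → (∀ v, (T2 v).1 = T v.1) →
    (∀ u, T2 (o, u) = (T o, t2 u)) → Gd τ T → (∀ u, (rho S T2)^[h] (o, u) = (T o, Φ u)) →
    Gd sV (t2.trans Φ.symm) → Gd S T2

/-- LC (lift count). PROOF. Take `h` from CYC (`h > 0` as `1 < card X`) and `W := (List.range (2 * h)).map (stp ..)`, a word
(WKA). Let `l : X → S` with `κ := kap (ι ∘ l) W` not identically `0`; by WL the number of the other `l`, times `m = card S`, is `≤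
m ^ card X`, so `m * #{such l} ≥ (m - 1) * m ^ card X`. WKB gives `Λ`, `k0` (depending on `l`). For `(ω, z)` with
`Gd (sV ω) (af (α * Λ⁻¹) z)` (at least `B` pairs) and `c` with `∑ e, κ e • c e = t o - k0 - Λ • z` (their number times
`card V` is `card V ^ card X`, UNI) the lift is good by RET with `S = lft ..` (involution by LIN), `T2 = tl ..`,
`t2 = af α (t o)`, `Φ = af Λ (t o - Λ • z)`: `t2.trans Φ.symm = af (α * Λ⁻¹) z` because `Λ⁻¹ • (α • u + t o - (t o - Λ • z)) = (α Λ⁻¹) • u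
+ z`. (`(lft v).1 = τ v.1` also at `v.1 = o`, as `τ o = o`.) Different `(ω, z)`, `l`, `c` give different triples `(ω, l, c)`:
`z` is determined by `l`, `c`. Sum over `z`, `ω`, `l`: `card V * #good ≥ #{such l} * B * card V ^ card X`; multiply by `m`. -/
def LC_stmt : Prop :=
  ∀ (X V F Ω S : Type) [Fintype X] [DecidableEq X] [Finite V] [Field F] [AddCommGroup V] [Module F V] [Finite Ω]
    [Finite S] (ι : S → F) (o : X) (τ : X → X) (r : X → Bool) (T : X ≃ X) (α : Fˣ) (t : X → V) (sV : Ω → V → V) (B : ℕ),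
    Function.Injective ι → (∀ s, ι s ≠ 0) → Inv o τ → Rp o τ r → Gd τ T → 1 < Fintype.card X →
    (α = 1 → ∀ x, T x ≠ x) → (∀ ω, Inv 0 (sV ω)) →
    (∀ a : Fˣ, B ≤ Nat.card {q : Ω × V // Gd (sV q.1) (af a q.2)}) →
    (Nat.card S - 1) * B * (Nat.card S * Nat.card V) ^ Fintype.card X ≤
      Nat.card S * Nat.card V *
        Nat.card {q : Ω × (X → S) × (X → V) //
          Gd (lft o τ r (sV q.1) (fun x => ι (q.2.1 x)) q.2.2) (tl T α t)}

/-- NSC. PROOF. `quadraticChar_sum_zero`, or: squaring on the units has kernel `{1, -1}`. -/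
def NSC_stmt : Prop := ∀ (p : ℕ) [Fact p.Prime], p ≠ 2 → 2 * Nat.card (NS p) = p - 1

/-- NEG. PROOF. `rho neg (af a z) u = -(a • (-(a⁻¹ • (u - z))) + z) = u - 2 z`, and `2 z ≠ 0`, so the multiples of `2 z` are
everything. -/
def NEG_stmt : Prop :=
  ∀ (p : ℕ) [Fact p.Prime] (a : (ZMod p)ˣ) (z : ZMod p), p ≠ 2 → z ≠ 0 → Gd (fun u : ZMod p => -u) (af a z)

/-- ST1. PROOF. `Inv (0, 0)` by LIN (`Inv 0 neg`: `2 ≠ 0`; `0 : V × ZMod p` is `(0, 0)`). A nonsquare is `≠ 0`, `≠ 1`.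
`h = (h1, h2) ≠ 0`. If `h1 = 0`: `(0, h2 / 2) - s (0, h2 / 2) = (0, h2)`. If `h1 ≠ 0`: `x ≠ 0` with `x - σ x = h1`; over `x`:
`(x, u) - s (x, u) = (h1, u - fm .. x u)` and `u ↦ u - fm .. x u` is `(1 - l x) u - c x` or `(1 - (l (τ x))⁻¹) u + const`,
surjective. -/
def ST1_stmt : Prop :=
  ∀ (p : ℕ) [Fact p.Prime] (V : Type) [DecidableEq V] [AddCommGroup V] [Module (ZMod p) V] (σ : V → V) (r : V → Bool)
    (l c : V → ZMod p), p ≠ 2 → St σ → Rp 0 σ r → (∀ x, ¬ IsSquare (l x)) →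
    St (lft (0 : V) σ r (fun u : ZMod p => -u) l c)

/-- FA1. PROOF. `m = Nat.card (NS p)`, `2 m = p - 1` (NSC). `Ω, σ` from `Fam p V k`, `r ω` from REP. New family: `Ω × (V → NS p) ×
(V → ZMod p)`, `(ω, l, c) ↦ lft 0 (σ ω) (r ω) neg (val ∘ l) c`, starters by ST1; its index set has `|Ω| (m p)^|V|` elements.
Given `a`, `s1 : ZMod p` and `(ω, s')` with `Gd (σ ω) (af a s')`: LC with `X = V`, `V = ZMod p`, `Ω = Unit`, `sV = neg`,
`S = NS p`, `T = af a s'`, `α = a`, `t = const s1`, `B = p - 1` (NEG; `a = 1 → ∀ x, T x ≠ x`: otherwise `s' = 0`, `T = id`, `rho =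
id`, not transitive as `1 < |V|`) gives `(m - 1) (p - 1) (m p)^|V| ≤ m p #{(l, c) | Gd (lft ..) (tl T a (const s1))}`, and
`tl (af a s') a (const s1) = af a (s', s1)` on `V × ZMod p`. `(m - 1) (p - 1) = m (p - 3)`. So for each `(ω, s')`, `s1`:
`(p - 3) (m p)^|V| ≤ p #{..}`; sum over the `p` values `s1` and over the at least `(p - 1) (p - 3)^k |Ω|` pairs `(ω, s')`:
`(p - 1) (p - 3)^(k+1) |Ω| (m p)^|V| ≤ #{((ω, l, c), (s', s1)) | good}`. -/
def FA1_stmt : Prop :=
  ∀ (p : ℕ) [Fact p.Prime] (V : Type) [Finite V] [AddCommGroup V] [Module (ZMod p) V] (k : ℕ), p ≠ 2 →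
    1 < Nat.card V → Fam p V k → Fam p (V × ZMod p) (k + 1)

/-- FA3. PROOF. Transport: `V ≃ₗ[ZMod p] V'` and `Fam p V k` give `Fam p V' k` (conjugate everything). `Fam p (ZMod p) 0` by NEG:
`Ω = Unit`, `σ = neg` (a starter as `2 ≠ 0`), `p - 1` nonzero `z`. Induction on `k`: `V` has dimension `k + 1`, so `V ≃ₗ (Fin
(k + 1) → ZMod p) ≃ₗ (Fin k → ZMod p) × ZMod p`; FA1. -/
def FA3_stmt : Prop :=
  ∀ (p : ℕ) [Fact p.Prime] (V : Type) [Finite V] [AddCommGroup V] [Module (ZMod p) V] (k : ℕ), p ≠ 2 →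
    Nat.card V = p ^ (k + 1) → Fam p V k

/-- STG. PROOF. The involution with the fixed point `1 = E (1, 0)`: conjugate LIN by `D.E` (`em 0 = 1`). Quotients:
`E (x, u) * (E (y, u'))⁻¹ = em u * sec x * (sec y)⁻¹ * (em u')⁻¹ = em (u - chi d u') * d` with `d = sec x * (sec y)⁻¹` (`em` is
additive, `conj`). Let `h ≠ 1`. If `pr h = 1`: `h = em w`, `w ≠ 0`; `u ≠ 0` with `u - sV u = w`; `x = E (1, u) = em u`. If `pr h ≠ 1`:
`x ≠ 1` in `Q` with `x * (f x)⁻¹ = pr h`, `y = f x`, `d = sec x * (sec y)⁻¹`, `h * d⁻¹ = em w`; we need `u` with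
`u - chi d (fm f r l c x u) = w`. `chi d` is additive, so `ZMod p`-linear; `fm .. x u = λ' • u + const` with `λ' = l x` or
`(l (f x))⁻¹`, a nonsquare; so it suffices that `u ↦ u - λ' • chi d u` is injective (`V` is finite... or `D.em` shows `V` is
finite since `G` is). If `λ' • chi d u = u`: with `n = Nat.card G` odd, `chi d` iterated `n` times is the identity (`d ^ n =
1`), so `u = λ'^n • u`, so `u = 0` or `λ'^n = 1`, then `λ' = λ'^(n+1)` is a square, contradiction. -/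
def STG_stmt : Prop :=
  ∀ (p : ℕ) [Fact p.Prime] (G Q V : Type) [Group G] [Finite G] [Group Q] [DecidableEq Q] [AddCommGroup V]
    [Module (ZMod p) V] (D : Ext p G Q V) (f : Q → Q) (r : Q → Bool) (sV : V → V) (l : Q → ZMod p) (c : Q → V),
    Odd (Nat.card G) → StG f → Rp 1 f r → St sV → (∀ x, ¬ IsSquare (l x)) →
    StG (fun g => D.E (lft 1 f r sV l c (D.E.symm g)))

/-- RM: right multiplications. PROOF. `t x` with `em (t x) = sec x * g * (sec (x * pr g))⁻¹` (in the kernel of `pr`). -/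
def RM_stmt : Prop :=
  ∀ (p : ℕ) [Fact p.Prime] (G Q V : Type) [Group G] [Group Q] [AddCommGroup V] [Module (ZMod p) V]
    (D : Ext p G Q V) (g : G),
    ∃ t : Q → V, ∀ v, D.E v * g = D.E (tl (Equiv.mulRight (D.pr g)) (1 : (ZMod p)ˣ) t v)

/-- CJ: conjugation. PROOF. `rho` of the conjugates is the conjugate of `rho`, also its iterates. -/
def CJ_stmt : Prop :=
  ∀ (X Y : Type) (E : X ≃ Y) (τ : X → X) (T : X ≃ X) (T' : Y ≃ Y), (∀ x, T' (E x) = E (T x)) → Gd τ T →
    Gd (fun y => E (τ (E.symm y))) T'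

/-- STP. PROOF. `m = Nat.card (NS p)`, `2 m = p - 1`, `m ≥ 1`. `Ω, σ` from FA3, `r` from REP. For `θ = (ω, l, c) ∈ Ω × (Q → NS p) ×
(Q → V)` let `f' θ := fun g => D.E (lft 1 f r (σ ω) (val ∘ l) c (D.E.symm g))`, a starter of `G` by STG. There are `N' = |Ω| (m
|V|)^|Q| > 0` such `θ`. Let `g ∈ G`, `q = pr g` with `Gd f (mulRight q)`; `q ≠ 1` (else `rho = id`, but `1 < |Q|`), so `x * q ≠
x`. LC with `X = Q`, `T = mulRight q`, `α = 1`, `t` from RM, `S = NS p`, `sV = σ`, `B = (p - 1) (p - 3)^k |Ω|`, and CJ (`E =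
D.E`, `T' = mulRight g`): `(m - 1) (p - 1) (p - 3)^k N' ≤ m |V| #{θ | Gd (f' θ) (mulRight g)}`, and `(m - 1) (p - 1) = m (p -
3)`, so `(p - 3)^(k+1) N' ≤ |V| #{θ | ..}`. The number of such `g` is `|V| ng f`. Sum over `g`: `ng f (p - 3)^(k+1) N' ≤ ∑ θ,
ng (f' θ)`, so some `θ` has `ng (f' θ) ≥ (p - 3)^(k+1) ng f`. -/
def STP_stmt : Prop :=
  ∀ (p : ℕ) [Fact p.Prime] (G Q V : Type) [Group G] [Finite G] [Group Q] [Finite Q] [AddCommGroup V]
    [Module (ZMod p) V] [Finite V] (D : Ext p G Q V) (k : ℕ) (f : Q → Q), p ≠ 2 → Nat.card V = p ^ (k + 1) →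
    Odd (Nat.card G) → StG f → 1 < Nat.card Q →
    ∃ f' : G → G, StG f' ∧ (p - 3) ^ (k + 1) * ng f ≤ ng f'

/-- TRV. PROOF. `D.em : V → G` is bijective (`pr g = 1` for all `g`). FA3 with `a = 1`: `(p - 1) (p - 3)^k |Ω| ≤ ∑ ω, #{z | Gd (σ
ω) (af 1 z)}`, so some `ω` has `(p - 1) (p - 3)^k ≤ #{z | Gd (σ ω) (af 1 z)}`. `f' := em ∘ σ ω ∘ em⁻¹`, a starter: `em v * (em
(σ v))⁻¹ = em (v - σ v)`. By CJ `Gd f' (mulRight (em z))` for these `z` (`em v * em z = em (v + z)`). -/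
def TRV_stmt : Prop :=
  ∀ (p : ℕ) [Fact p.Prime] (G Q V : Type) [Group G] [Finite G] [Group Q] [AddCommGroup V]
    [Module (ZMod p) V] [Finite V] (D : Ext p G Q V) (k : ℕ), p ≠ 2 → Nat.card V = p ^ (k + 1) → Nat.card Q = 1 →
    ∃ f' : G → G, StG f' ∧ (p - 3) ^ (k + 1) ≤ ng f'

/-- SKW: skew products. PROOF. `ρ` is bijective (finite, transitive, so surjective), a cycle of length `N = card X`, so the
`N`-th iterate of the map is `(x, u) ↦ (x, u + ∑ y, w y)`; `V` has prime order `3`, so the multiples of `M = ∑ w ≠ 0` are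
everything. So from `(x, u)` we reach a point over `y`, and then every point over `y`. -/
def SKW_stmt : Prop :=
  ∀ (X V : Type) [Fintype X] [AddCommGroup V] (ρ : X → X) (w : X → V), Nat.card V = 3 → Tr ρ → ∑ x, w x ≠ 0 →
    Tr (fun v : X × V => (ρ v.1, v.2 + w v.1))

/-- RT3. PROOF. `r` from REP. `f' := fun g => D.E (lft 1 f r neg (-1) 0 (D.E.symm g))`, a starter by STG (`-1` is no square mod 3);
`lft .. (x, u) = (f x, -u)` for all `x` (`f 1 = 1`; `(-1)⁻¹ = -1`). Every `em u` is central: `chi g` is an additive bijection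
of `V = {0, v, -v}`, so `±1`, so `chi (g^2) = id`; `g` has odd order, so `g` is a power of `g^2`, `chi g = id`. Let
`q` with `Gd f (mulRight q)` and `g0 := sec q`, `t` from RM for `g0`. For `k : V` let `g = g0 * em k`: `D.E v * g = D.E (tl
(mulRight q) 1 (t + k) v)` (`em k` is central). `rho (lft ..) (tl (mulRight q) 1 (t + k)) (x, u) = (rho f (mulRight q) x, u + w
x)` with `w x = -(t (x q⁻¹) + k) - (t (f (x q⁻¹)) + k) = w0 x - 2 k = w0 x + k` (`3 k = 0`), so `∑ x, w x = M0 + |Q| k`. As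
`3 ∤ |Q|`, `k ↦ |Q| k` is bijective on `V`, so exactly `2` of the `3` `k` have `M0 + |Q| k ≠ 0`; then SKW and CJ give
`Gd f' (mulRight g)`. So over every good `q` there are at least two good `g` (`pr g = q`). -/
def RT3_stmt : Prop :=
  ∀ (G Q V : Type) [Group G] [Finite G] [Group Q] [Finite Q] [AddCommGroup V] [Module (ZMod 3) V] [Finite V]
    (D : Ext 3 G Q V) (f : Q → Q), Nat.card V = 3 → Odd (Nat.card G) → ¬ 3 ∣ Nat.card Q → StG f →
    ∃ f' : G → G, StG f' ∧ 2 * ng f ≤ ng f'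

/-- CHF. PROOF. Least `n` with `derivedSeries G n = ⊥`; `n ≥ 1` as `G` is nontrivial; `A = derivedSeries G (n - 1) ≠ ⊥` is
commutative and normal (characteristic). `p` a prime factor of `Nat.card A`; `K = {x ∈ A | x ^ p = 1}` is a subgroup, normal
in `G` and nontrivial (Cauchy). -/
def CHF_stmt : Prop :=
  ∀ (G : Type) [Group G] [Finite G], Group.IsSolvable G → 1 < Nat.card G →
    ∃ (p : ℕ) (K : Subgroup G), p.Prime ∧ K.Normal ∧ 1 < Nat.card K ∧ (∀ x ∈ K, ∀ y ∈ K, x * y = y * x) ∧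
      ∀ x ∈ K, x ^ p = 1

/-- EXX. PROOF. `V = Additive K` (with the commutative group structure on `K` from the hypothesis, `AddCommGroup.zmodModule`).
`Nat.card V = p ^ (k + 1)`: a nontrivial `p`-group (`IsPGroup.iff_card`). `pr = QuotientGroup.mk' K`, `em u = ↑(u.toMul)`,
`sec 1 = 1` and `sec q = q.out` otherwise, `chi g u = g u g⁻¹` (`K` is normal). -/
def EXX_stmt : Prop :=
  ∀ (G : Type) [Group G] [Finite G] (p : ℕ) [Fact p.Prime] (K : Subgroup G) [K.Normal], 1 < Nat.card K →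
    (∀ x ∈ K, ∀ y ∈ K, x * y = y * x) → (∀ x ∈ K, x ^ p = 1) →
    ∃ (V : Type) (_ : AddCommGroup V) (_ : Module (ZMod p) V) (_ : Finite V) (k : ℕ),
      Nat.card V = p ^ (k + 1) ∧ Nonempty (Ext p G (G ⧸ K) V)

/-- WMU. PROOF. `Nat.perm_primeFactorsList_mul`, `Nat.Prime.primeFactorsList_pow`. -/
def WMU_stmt : Prop :=
  ∀ (p k m : ℕ), p.Prime → m ≠ 0 → WW (p ^ k * m) = (if p = 3 then 2 else p - 3) ^ k * WW m

/-- FIN. PROOF. Strong induction on `Nat.card G`. `Nat.card G = 1`: `f = id`, `WW 1 = 1`, `ng f = 1`. Else CHF, EXX: `p`, `K`, `V`,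
`k`, `D : Ext p G (G ⧸ K) V`; `Nat.card G = Nat.card (G ⧸ K) * p ^ (k + 1)` (`D.E`); `Q = G ⧸ K` is solvable
(`solvable_quotient_of_solvable`), of smaller odd order, not divisible by `9`; `f` from the induction hypothesis. `p ≠ 2` as
the order is odd. If `p ≠ 3` and `1 < Nat.card Q`: STP, if `p ≠ 3` and `Nat.card Q = 1`: TRV (`WW 1 = 1`). If `p = 3`: `k = 0` and
`3 ∤ Nat.card Q` as `9 ∤ Nat.card G`: RT3. WMU. -/
def FIN_stmt : Prop :=
  ∀ (G : Type) [Group G] [Finite G], Group.IsSolvable G → Odd (Nat.card G) → ¬ 9 ∣ Nat.card G →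
    ∃ f : G → G, StG f ∧ WW (Nat.card G) ≤ ng f

/-- HCL. PROOF. By recursion on `n < N` there is a walk from `s 0` to `s n` with support `[s 0, ..., s n]` (a path); close
it with the edge `s (N - 1)`, `s 0`. -/
def HCL_stmt : Prop :=
  ∀ (W : Type) [Fintype W] [DecidableEq W] (Γ : SimpleGraph W) (N : ℕ) (s : ℕ → W), 3 ≤ N → Fintype.card W = N →
    (∀ i j, i < N → j < N → s i = s j → i = j) → (∀ i, i + 1 < N → Γ.Adj (s i) (s (i + 1))) →
    Γ.Adj (s (N - 1)) (s 0) → ∃ p : Γ.Walk (s 0) (s 0), p.IsHamiltonianCycle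

/-- HAM. PROOF. `X = G`, `o = 1`, `τ = f`, `T = mulRight (h * g⁻¹)`, CYC gives `m` (`card G = 2 m + 1 > 1`). HCL with `N = 2 m + 2`,
`s 0 = none`, `s (i + 1) = some (z_i * g)`. `z_0 * g = g`, adjacent to `none` by `F_g`. Even `i < 2 m`: `x = T⁻¹ z_i ≠ 1`
(`z_{2m} = T 1`), `z_i * g = x * h`, `z_{i+1} * g = T (f x) * g = f x * h`: an edge of `F_h`. Odd `i < 2 m`: `z_i ≠ 1`,
`z_{i+1} = f z_i`: an edge of `F_g`. `z_{2m} * g = T 1 * g = h`, adjacent to `none` by `F_h`. (`f x ≠ x` for `x ≠ 1`.) -/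
def HAM_stmt : Prop :=
  ∀ (G : Type) [Group G] [Fintype G] [DecidableEq G] (f : G → G) (g h : G), StG f → 1 < Fintype.card G →
    Gd f (Equiv.mulRight (h * g⁻¹)) → ∃ (a : Option G) (p : (UG f g h).Walk a a), p.IsHamiltonianCycle

end Pool.Agent.PFS
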