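import Pool.Agent.helper12.PFS.Spec

/-!
# Almost perfect starters (MP_16a903_co): the final form

`G` solvable of odd order with cyclic Sylow `3`-subgroups, `N` a normal subgroup with cyclic quotient.
-/

set_option autoImplicit false

namespace Pool.Agent.PFS

/-- CHN. PROOF (adapt `Pool/Agent/helper89/PFS/CHF.lean`). Least `n` with `derivedSeries N n = ⊥` (`N` is solvable, nontrivial, so
`n ≥ 1`); `A = derivedSeries N (n - 1) ≠ ⊥` is commutative and characteristic in `N`. `p` a prime factor of `Nat.card A`;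
`K' = {x ∈ A | x ^ p = 1}` is a subgroup of `N`, characteristic in `N`, nontrivial (Cauchy). `K = K'.map N.subtype` is normal in `G`
(`ConjAct.normal_of_characteristic_of_normal`), `K ≤ N`. -/
def CHN_stmt : Prop :=
  ∀ (G : Type) [Group G] [Finite G] (N : Subgroup G) [N.Normal], Group.IsSolvable G → 1 < Nat.card N →
    ∃ (p : ℕ) (K : Subgroup G), p.Prime ∧ K.Normal ∧ K ≤ N ∧ 1 < Nat.card K ∧
      (∀ x ∈ K, ∀ y ∈ K, x * y = y * x) ∧ ∀ x ∈ K, x ^ p = 1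

/-- CYB. PROOF. `f x = x⁻¹`. `Inv 1 f`: `x⁻¹ = x` iff `x ^ 2 = 1` iff `x = 1` (odd order). Quotients: `x * (x⁻¹)⁻¹ = x ^ 2`; `x = h ^ ((n
+ 1) / 2)` for `h ≠ 1`. `rho f (mulRight h) x = ((x h⁻¹)⁻¹ h)⁻¹ = x * (h⁻¹) ^ 2` (`G` is commutative); if `h` generates `G`, so does
`(h⁻¹) ^ 2` (odd order), so `Gd f (mulRight h)`. There are `φ n` generators (`IsCyclic.card_orderOf_eq_totient`). -/
def CYB_stmt : Prop :=
  ∀ (G : Type) [Group G] [Finite G], IsCyclic G → Odd (Nat.card G) →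
    ∃ f : G → G, StG f ∧ Nat.totient (Nat.card G) ≤ ng f

/-- BUR. PROOF. If `3 ∤ Nat.card G`: `M = N`, `a = 0`. Else `3 = (Nat.card G).minFac` (odd order). `P` a Sylow `3`-subgroup, cyclic;
`IsCyclic.isComplement'` (in `Mathlib/GroupTheory/Transfer.lean`; `MonoidHom.transferSylow`) gives a normal `N0` (a kernel) with
`IsComplement' N0 P`: `Nat.card N0 * Nat.card P = Nat.card G`, `G ⧸ N0` is isomorphic to `P` (order `3 ^ j`), cyclic,
`3 ∤ Nat.card N0`. `M = N ⊓ N0`: normal, `3 ∤ Nat.card M`; `N / M` embeds into `G / N0`, so `Nat.card N = 3 ^ a * Nat.card M`.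
`A = G ⧸ M` embeds into `G ⧸ N × G ⧸ N0`, so it is commutative. With `m = Nat.card (G ⧸ N) = 3 ^ b * m'`, `3 ∤ m'`: `Nat.card A = 3 ^ j *
m'` (the `3`-part of `Nat.card G` is `3 ^ j`, `3 ∤ Nat.card M`, and `Nat.card A = 3 ^ a * m`). Take `x ∈ A` over a generator of `G ⧸ N`, `y ∈ A` over
a generator of `G ⧸ N0`: `m ∣ orderOf x ∣ 3 ^ j m'`, so `orderOf (x ^ (3 ^ j)) = m'`; `3 ^ j ∣ orderOf y ∣ 3 ^ j m'`, so `orderOf (y ^
m') = 3 ^ j`; the product has order `3 ^ j m'` (`Commute.orderOf_mul_eq_mul_orderOf_of_coprime`), so `A` is cyclic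
(`isCyclic_of_orderOf_eq_card`). -/
def BUR_stmt : Prop :=
  ∀ (G : Type) [Group G] [Finite G] (N : Subgroup G) [N.Normal], Odd (Nat.card G) →
    (∀ P : Sylow 3 G, IsCyclic P) → IsCyclic (G ⧸ N) →
    ∃ (M : Subgroup G) (_ : M.Normal) (a : ℕ), IsCyclic (G ⧸ M) ∧ ¬ 3 ∣ Nat.card M ∧
      Nat.card N = 3 ^ a * Nat.card M

/-- NUM. PROOF. `WW m = ∏ p ∈ m.primeFactors, (p - 3) ^ m.factorization p` (`Nat.primeFactorsList`, counts; `3 ∤ m`). If `a = 0`:
equality. If `a ≥ 1`: `n.primeFactors = insert 3 m.primeFactors`, `n.factorization 3 = a`, `n.factorization p =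
m.factorization p` for `p ≠ 3`, `2 * 3 ^ (a - 1) = φ (3 ^ a)`, and `φ q * φ (3 ^ a) ≤ φ (q * 3 ^ a)`
(`Nat.totient_super_multiplicative`). -/
def NUM_stmt : Prop :=
  ∀ (q n m a : ℕ), m ≠ 0 → ¬ 3 ∣ m → n = 3 ^ a * m →
    Nat.totient q * ∏ p ∈ n.primeFactors,
        (if p = 3 then 2 * 3 ^ (n.factorization 3 - 1) else (p - 3) ^ n.factorization p) ≤
      Nat.totient (q * 3 ^ a) * WW m

/-- FN2. PROOF. Induction on `Nat.card N`. `N = ⊥`: `G` is cyclic, CYB. Else `K ≤ N` from CHN, `Q = G ⧸ K`, `N' = N.map (mk' K)`,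
`Q ⧸ N' ≃* G ⧸ N`, `Nat.card N = Nat.card K * Nat.card N'`. `p ≠ 2`, `p ≠ 3`. STP, or TRV if `Q` is trivial. WMU. -/
def FN2_stmt : Prop :=
  ∀ (G : Type) [Group G] [Finite G] (N : Subgroup G) [N.Normal], Group.IsSolvable G → Odd (Nat.card G) →
    IsCyclic (G ⧸ N) → ¬ 3 ∣ Nat.card N →
    ∃ f : G → G, StG f ∧ Nat.totient (Nat.card (G ⧸ N)) * WW (Nat.card N) ≤ ng f

end Pool.Agent.PFS
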